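import Mathlib
import Pool.Agent.TH635.BV.Items

set_option autoImplicit false

/-!
# Iterated means over the sizes of blocks
-/

namespace Pool.Agent.J6H53.PB

open Finset Pool.Agent.TH7.DH Pool.Agent.TH635.BV

/-- put `t` in front of a sequence -/
def cons (t : ℕ) (s : ℕ → ℕ) : ℕ → ℕ
  | 0 => t
  | k + 1 => s k

/-- add `t` to the entry `b` of a sequence -/
def bump (b t : ℕ) (s : ℕ → ℕ) : ℕ → ℕ := fun k => s k + if k = b then t else 0

lemma bump_zero_cons (t r : ℕ) (s : ℕ → ℕ) : bump 0 t (cons r s) = cons (r + t) s := by
  funext k
  cases k <;> simp [bump, cons]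

lemma bump_succ_cons (b t r : ℕ) (s : ℕ → ℕ) : bump (b + 1) t (cons r s) = cons r (bump b t s) := by
  funext k
  cases k <;> simp [bump, cons]

/-- iterated mean over the sizes of `m` blocks (all sizes positive) -/
noncomputable def IM : ℕ → ((ℕ → ℕ) → ℝ) → ℝ
  | 0, F => F (fun _ => 0)
  | m + 1, F => mean (fun t => IM m (fun s => F (cons (t + 1) s)))

/-- bounded functions of the sizes -/
def BS (F : (ℕ → ℕ) → ℝ) : Prop := ∃ B : ℝ, ∀ s, |F s| ≤ B

lemma IM_abs (m : ℕ) : ∀ {F : (ℕ → ℕ) → ℝ} {B : ℝ}, (∀ s, |F s| ≤ B) → |IM m F| ≤ B := by
  induction m with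
  | zero => intro F B h; exact h _
  | succ m ih => intro F B h; exact mean_abs fun t => ih fun s => h _

lemma BS.bdd {F : (ℕ → ℕ) → ℝ} (h : BS F) (m : ℕ) :
    Bdd (fun t => IM m (fun s => F (cons (t + 1) s))) := by
  obtain ⟨B, hB⟩ := h
  exact ⟨B, fun t => IM_abs m fun s => hB _⟩

lemma BS.comp {F : (ℕ → ℕ) → ℝ} (h : BS F) (g : (ℕ → ℕ) → (ℕ → ℕ)) : BS (fun s => F (g s)) := by
  obtain ⟨B, hB⟩ := h
  exact ⟨B, fun s => hB _⟩

lemma IM_const (m : ℕ) (x : ℝ) : IM m (fun _ => x) = x := by
  induction m with
  | zero => rfl
  | succ m ih =>
    change mean (fun t => IM m (fun s => x)) = x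
    rw [ih, mean_const]

lemma IM_add (m : ℕ) : ∀ {F G : (ℕ → ℕ) → ℝ}, BS F → BS G →
    IM m (fun s => F s + G s) = IM m F + IM m G := by
  induction m with
  | zero => intro F G _ _; rfl
  | succ m ih =>
    intro F G hF hG
    change mean (fun t => IM m (fun s => F (cons (t + 1) s) + G (cons (t + 1) s))) = _
    have h1 : ∀ t, IM m (fun s => F (cons (t + 1) s) + G (cons (t + 1) s))
        = IM m (fun s => F (cons (t + 1) s)) + IM m (fun s => G (cons (t + 1) s)) := fun t =>
      ih (hF.comp _) (hG.comp _)
    simp only [h1]
    exact mean_add (hF.bdd m) (hG.bdd m)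

lemma IM_smul (m : ℕ) (c : ℝ) : ∀ {F : (ℕ → ℕ) → ℝ}, BS F →
    IM m (fun s => c * F s) = c * IM m F := by
  induction m with
  | zero => intro F _; rfl
  | succ m ih =>
    intro F hF
    change mean (fun t => IM m (fun s => c * F (cons (t + 1) s))) = _
    have h1 : ∀ t, IM m (fun s => c * F (cons (t + 1) s))
        = c * IM m (fun s => F (cons (t + 1) s)) := fun t => ih (hF.comp _)
    simp only [h1]
    exact mean_smul c (hF.bdd m)

lemma IM_mono (m : ℕ) : ∀ {F G : (ℕ → ℕ) → ℝ}, BS F → BS G →
    (∀ s, (∀ i, i < m → 0 < s i) → F s ≤ G s) → IM m F ≤ IM m G := by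
  induction m with
  | zero => intro F G _ _ h; exact h _ fun i hi => by omega
  | succ m ih =>
    intro F G hF hG h
    refine mean_mono (hF.bdd m) (hG.bdd m) fun t => ?_
    refine ih (hF.comp _) (hG.comp _) fun s hs => h _ fun i hi => ?_
    cases i with
    | zero => simp [cons]
    | succ i => exact hs i (by omega)

lemma IM_congr (m : ℕ) : ∀ {F G : (ℕ → ℕ) → ℝ},
    (∀ s, (∀ i, i < m → 0 < s i) → F s = G s) → IM m F = IM m G := by
  induction m with
  | zero => intro F G h; exact h _ fun i hi => by omega
  | succ m ih =>
    intro F G h
    change mean _ = mean _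
    congr 1
    funext t
    refine ih fun s hs => h _ fun i hi => ?_
    cases i with
    | zero => simp [cons]
    | succ i => exact hs i (by omega)

lemma IM_shift (m : ℕ) : ∀ (b t : ℕ) {F : (ℕ → ℕ) → ℝ}, BS F → b < m →
    IM m (fun s => F (bump b t s)) = IM m F := by
  induction m with
  | zero => intro b t F _ hb; omega
  | succ m ih =>
    intro b t F hF hb
    cases b with
    | zero =>
      change mean (fun r => IM m (fun s => F (bump 0 t (cons (r + 1) s)))) = _
      have h1 : (fun r => IM m (fun s => F (bump 0 t (cons (r + 1) s))))
          = fun r => (fun r => IM m (fun s => F (cons (r + 1) s))) (r + t) := by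
        funext r
        simp only [bump_zero_cons]
        rw [Nat.add_right_comm]
      rw [h1, mean_shift t (hF.bdd m)]
      rfl
    | succ b =>
      change mean (fun r => IM m (fun s => F (bump (b + 1) t (cons (r + 1) s)))) = _
      simp only [bump_succ_cons]
      have h1 : ∀ r, IM m (fun s => F (cons (r + 1) (bump b t s)))
          = IM m (fun s => F (cons (r + 1) s)) := fun r =>
        ih b t (F := fun s => F (cons (r + 1) s)) (hF.comp _) (by omega)
      simp only [h1]
      rfl

/-- total size of the blocks with a given label -/
def push (m : ℕ) (L : ℕ → ℕ) (s : ℕ → ℕ) : ℕ → ℕ := fun b =>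
  ∑ i ∈ range m, if L i = b then s i else 0

/-- `F` depends on the first `m` entries only -/
def Dep (m : ℕ) (F : (ℕ → ℕ) → ℝ) : Prop := ∀ s s', (∀ b, b < m → s b = s' b) → F s = F s'

theorem IM_push (m : ℕ) : ∀ (m' : ℕ) (L r : ℕ → ℕ) {F : (ℕ → ℕ) → ℝ}, BS F → Dep m' F →
    (∀ b, b < m' → r b < m ∧ L (r b) = b) → (∀ b b', b < b' → b' < m' → r b < r b') →
    (∀ k, k < m → L k < m' → k ≤ r (L k)) →
    IM m (fun s => F (push m L s)) = IM m' F := by
  induction m with
  | zero =>
    intro m' L r F _ hD h1 _ _
    have : m' = 0 := by
      by_contra h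
      have := (h1 0 (by omega)).1
      omega
    subst this
    exact hD _ _ fun b hb => by omega
  | succ m ih =>
    intro m' L r F hF hD h1 h2 h3
    by_cases hc : 0 < m' ∧ r 0 = 0
    · obtain ⟨hm, hr⟩ := hc
      obtain ⟨n, rfl⟩ : ∃ n, m' = n + 1 := ⟨m' - 1, by omega⟩
      have hL0 : L 0 = 0 := by
        have := (h1 0 (by omega)).2
        rwa [hr] at this
      have hL : ∀ k, k < m → L (k + 1) ≠ 0 := by
        intro k hk h0
        have := h3 (k + 1) (by omega) (by omega)
        rw [h0, hr] at this
        omega
      have e1 : ∀ t s, push (m + 1) L (cons t s) = cons t (push m (fun k => L (k + 1) - 1) s) := by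
        intro t s
        funext b
        unfold push
        rw [sum_range_succ']
        cases b with
        | zero =>
          simp only [cons, hL0, if_true]
          rw [sum_eq_zero, zero_add]
          intro i hi
          rw [if_neg (hL i (mem_range.1 hi))]
        | succ b =>
          simp only [cons, hL0]
          rw [if_neg (by omega), add_zero]
          refine sum_congr rfl fun i hi => ?_
          have := hL i (mem_range.1 hi)
          by_cases h : L (i + 1) = b + 1
          · rw [if_pos h, if_pos (by omega)]
          · rw [if_neg h, if_neg (by omega)]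
      change mean (fun t => IM m (fun s => F (push (m + 1) L (cons (t + 1) s)))) = mean _
      congr 1
      funext t
      simp only [e1]
      refine ih n (fun k => L (k + 1) - 1) (fun b => r (b + 1) - 1)
        (F := fun s => F (cons (t + 1) s)) (hF.comp _) ?_ ?_ ?_ ?_
      · intro s s' hs
        refine hD _ _ fun b hb => ?_
        cases b with
        | zero => rfl
        | succ b => exact hs b (by omega)
      · intro b hb
        have a1 := h1 (b + 1) (by omega)
        have a2 := h2 0 (b + 1) (by omega) (by omega)
        have a3 : r (b + 1) - 1 + 1 = r (b + 1) := by omega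
        simp only [a3, a1.2]
        omega
      · intro b b' hb hb'
        have a2 := h2 0 (b + 1) (by omega) (by omega)
        have a3 := h2 (b + 1) (b' + 1) (by omega) (by omega)
        omega
      · intro k hk hk'
        have a1 := hL k hk
        have a2 := h3 (k + 1) (by omega) (by omega)
        have a3 : L (k + 1) - 1 + 1 = L (k + 1) := by omega
        simp only [a3]
        omega
    · have hr : ∀ b, b < m' → 0 < r b := by
        intro b hb
        rcases Nat.eq_zero_or_pos b with h | h
        · subst h
          by_contra h0
          exact hc ⟨hb, by omega⟩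
        · have := h2 0 b h hb
          omega
      have e1 : ∀ t s, push (m + 1) L (cons t s)
          = bump (L 0) t (push m (fun k => L (k + 1)) s) := by
        intro t s
        funext b
        unfold push bump
        rw [sum_range_succ']
        simp only [cons]
        congr 1
        by_cases h : L 0 = b
        · rw [if_pos h, if_pos h.symm]
        · rw [if_neg h, if_neg fun h' => h h'.symm]
      change mean (fun t => IM m (fun s => F (push (m + 1) L (cons (t + 1) s)))) = IM m' F
      simp only [e1]
      have key : ∀ G : (ℕ → ℕ) → ℝ, BS G → Dep m' G →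
          IM m (fun s => G (push m (fun k => L (k + 1)) s)) = IM m' G := by
        intro G hG hDG
        refine ih m' (fun k => L (k + 1)) (fun b => r b - 1) hG hDG ?_ ?_ ?_
        · intro b hb
          have a1 := h1 b hb
          have a2 := hr b hb
          have a3 : r b - 1 + 1 = r b := by omega
          refine ⟨by omega, ?_⟩
          rw [a3]
          exact a1.2
        · intro b b' hb hb'
          have a2 := hr b (by omega)
          have a3 := h2 b b' hb hb'
          omega
        · intro k hk hk'
          have a2 := h3 (k + 1) (by omega) hk'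
          omega
      by_cases hL : L 0 < m'
      · have h4 : ∀ t, IM m (fun s => F (bump (L 0) (t + 1) (push m (fun k => L (k + 1)) s)))
            = IM m' F := by
          intro t
          rw [key (fun s => F (bump (L 0) (t + 1) s)) (hF.comp _) ?_]
          · exact IM_shift m' (L 0) (t + 1) hF hL
          · intro s s' hs
            refine hD _ _ fun b hb => ?_
            unfold bump
            rw [hs b hb]
        simp only [h4]
        exact mean_const _
      · have h4 : ∀ t, IM m (fun s => F (bump (L 0) (t + 1) (push m (fun k => L (k + 1)) s)))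
            = IM m' F := by
          intro t
          rw [← key F hF hD]
          congr 1
          funext s
          refine hD _ _ fun b hb => ?_
          unfold bump
          rw [if_neg (by omega), add_zero]
        simp only [h4]
        exact mean_const _

end Pool.Agent.J6H53.PB
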