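import Mathlib
import Pool.Agent.J6H53.PB.IM

set_option autoImplicit false

/-!
# Block patterns
-/

namespace Pool.Agent.J6H53.PB

open Finset Pool.Agent.TH7.DH Pool.Agent.TH635.BV

open Classical in
/-- the indicator of the event that a block pattern is in the family -/
noncomputable def ff (W : (ℕ → ℕ → Prop) → Prop) (P : ℕ → ℕ → Prop) : ℝ := if W P then 1 else 0

lemma ff01 (W : (ℕ → ℕ → Prop) → Prop) (P : ℕ → ℕ → Prop) : ff W P = 0 ∨ ff W P = 1 := by
  unfold ff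
  split_ifs
  · exact Or.inr rfl
  · exact Or.inl rfl

/-- the block patterns in a set of patterns -/
def blk (m : ℕ) (s : Fin m → ℕ) (U : ((Fin 2 → Σ i : Fin m, Fin (s i)) → Prop) → Prop) :
    (ℕ → ℕ → Prop) → Prop :=
  fun P => U (fun c => P (c 0).1 (c 1).1)

/-- the limit functional on blocks, each much larger than the ones before it -/
noncomputable def Eb (X : Fam) (m : ℕ) (Ψ : ((ℕ → ℕ → Prop) → Prop) → ℝ) : ℝ :=
  IM m (fun s => X.E (Σ i : Fin m, Fin (s i)) (fun U => Ψ (blk m (fun i => s i) U)))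

/-- bounded functions -/
def BF (Ψ : ((ℕ → ℕ → Prop) → Prop) → ℝ) : Prop := ∃ B : ℝ, 0 ≤ B ∧ ∀ W, |Ψ W| ≤ B

lemma BF.bs (X : Fam) {m : ℕ} {Ψ : ((ℕ → ℕ → Prop) → Prop) → ℝ} (h : BF Ψ) :
    BS (fun s => X.E (Σ i : Fin m, Fin (s i)) (fun U => Ψ (blk m (fun i => s i) U))) := by
  obtain ⟨B, hB0, hB⟩ := h
  exact ⟨B, fun s => X.E_abs hB0 fun U => hB _⟩

lemma BF.const (x : ℝ) : BF (fun _ => x) := ⟨|x|, abs_nonneg _, fun _ => le_rfl⟩

lemma BF.ff (P : ℕ → ℕ → Prop) : BF (fun W => ff W P) := by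
  refine ⟨1, zero_le_one, fun W => ?_⟩
  change |PB.ff W P| ≤ 1
  rcases ff01 W P with h | h <;> rw [h] <;> norm_num

lemma BF.add {Ψ Ψ' : ((ℕ → ℕ → Prop) → Prop) → ℝ} (h : BF Ψ) (h' : BF Ψ') :
    BF (fun W => Ψ W + Ψ' W) := by
  obtain ⟨B, hB0, hB⟩ := h
  obtain ⟨B', hB0', hB'⟩ := h'
  exact ⟨B + B', by positivity, fun W => (abs_add_le _ _).trans (add_le_add (hB W) (hB' W))⟩

lemma BF.mul {Ψ Ψ' : ((ℕ → ℕ → Prop) → Prop) → ℝ} (h : BF Ψ) (h' : BF Ψ') :
    BF (fun W => Ψ W * Ψ' W) := by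
  obtain ⟨B, hB0, hB⟩ := h
  obtain ⟨B', hB0', hB'⟩ := h'
  exact ⟨B * B', by positivity, fun W => by
    rw [abs_mul]; exact mul_le_mul (hB W) (hB' W) (abs_nonneg _) hB0⟩

lemma BF.smul {Ψ : ((ℕ → ℕ → Prop) → Prop) → ℝ} (c : ℝ) (h : BF Ψ) : BF (fun W => c * Ψ W) :=
  (BF.const c).mul h

lemma BF.sum {I : Type} (s : Finset I) {Ψ : I → ((ℕ → ℕ → Prop) → Prop) → ℝ}
    (h : ∀ i, BF (Ψ i)) : BF (fun W => ∑ i ∈ s, Ψ i W) := by
  classical
  induction s using Finset.induction_on with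
  | empty => simpa using BF.const 0
  | insert i s hi ih =>
    simp only [Finset.sum_insert hi]
    exact (h i).add ih

lemma BF.fin {J : Type} [Finite J] (P : J → ℕ → ℕ → Prop) (Φ : (J → Prop) → ℝ) :
    BF (fun W => Φ (fun j => W (P j))) := by
  obtain ⟨B, hB⟩ := (Set.finite_range (fun v => |Φ v|)).bddAbove
  exact ⟨max B 0, le_max_right _ _, fun W => (hB ⟨_, rfl⟩).trans (le_max_left _ _)⟩

variable (X : Fam)

lemma Eb_const (m : ℕ) (x : ℝ) : Eb X m (fun _ => x) = x := by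
  unfold Eb
  simp only [X.E_const]
  exact IM_const m x

lemma Eb_add (m : ℕ) {Ψ Ψ' : ((ℕ → ℕ → Prop) → Prop) → ℝ} (h : BF Ψ) (h' : BF Ψ') :
    Eb X m (fun W => Ψ W + Ψ' W) = Eb X m Ψ + Eb X m Ψ' := by
  unfold Eb
  simp only [X.E_add]
  exact IM_add m (h.bs X) (h'.bs X)

lemma Eb_smul (m : ℕ) {Ψ : ((ℕ → ℕ → Prop) → Prop) → ℝ} (c : ℝ) (h : BF Ψ) :
    Eb X m (fun W => c * Ψ W) = c * Eb X m Ψ := by
  unfold Eb
  simp only [X.E_smul]
  exact IM_smul m c (h.bs X)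

lemma Eb_sum (m : ℕ) {I : Type} (s : Finset I) {Ψ : I → ((ℕ → ℕ → Prop) → Prop) → ℝ}
    (h : ∀ i, BF (Ψ i)) : Eb X m (fun W => ∑ i ∈ s, Ψ i W) = ∑ i ∈ s, Eb X m (Ψ i) := by
  classical
  induction s using Finset.induction_on with
  | empty => simpa using Eb_const X m 0
  | insert i s hi ih =>
    simp only [Finset.sum_insert hi]
    rw [Eb_add X m (h i) (BF.sum s h), ih]

/-- sets of block patterns that can occur: no two patterns differ by the square of a nonempty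
union of blocks -/
def AdmB (m : ℕ) (W : (ℕ → ℕ → Prop) → Prop) : Prop :=
  ∀ (P Q : ℕ → ℕ → Prop) (γ : ℕ → Prop), (∃ i, i < m ∧ γ i) →
    (∀ i j, i < m → j < m → γ i → γ j → ¬ P i j) →
    (∀ i j, i < m → j < m → (Q i j ↔ P i j ∨ (γ i ∧ γ j))) → ¬ (W P ∧ W Q)

lemma admB_blk {m : ℕ} {s : Fin m → ℕ} (hs : ∀ i, 0 < s i)
    {U : ((Fin 2 → Σ i : Fin m, Fin (s i)) → Prop) → Prop} (hU : Adm U) : AdmB m (blk m s U) := by
  classical
  rintro P Q γ ⟨i, hi, hγ⟩ h1 h2 ⟨h3, h4⟩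
  refine hU (fun c => P (c 0).1 (c 1).1)
    (univ.filter (fun x : Σ i : Fin m, Fin (s i) => γ x.1)) ?_ ?_ ⟨h3, ?_⟩
  · exact ⟨⟨⟨i, hi⟩, ⟨0, hs _⟩⟩, by simpa using hγ⟩
  · intro c hc
    have e0 := hc 0
    have e1 := hc 1
    simp only [mem_filter, mem_univ, true_and] at e0 e1
    exact h1 _ _ (c 0).1.2 (c 1).1.2 e0 e1
  · have e : (fun c : Fin 2 → Σ i : Fin m, Fin (s i) => P (c 0).1 (c 1).1
        ∨ ∀ t, c t ∈ univ.filter (fun x : Σ i : Fin m, Fin (s i) => γ x.1))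
        = fun c => Q (c 0).1 (c 1).1 := by
      funext c
      refine propext ?_
      rw [h2 _ _ (c 0).1.2 (c 1).1.2, Fin.forall_fin_two]
      simp only [mem_filter, mem_univ, true_and]
    rw [e]
    exact h4

lemma Eb_mono (hX : X.Bad) (m : ℕ) {Ψ Ψ' : ((ℕ → ℕ → Prop) → Prop) → ℝ} (h : BF Ψ) (h' : BF Ψ')
    (hle : ∀ W, AdmB m W → Ψ W ≤ Ψ' W) : Eb X m Ψ ≤ Eb X m Ψ' := by
  refine IM_mono m (h.bs X) (h'.bs X) fun s hs => ?_
  exact X.E_mono hX fun U hU => hle _ (admB_blk (fun i => hs i i.2) hU)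

lemma exists_lab (m m' : ℕ) (L s : ℕ → ℕ) :
    ∃ g : (Σ b : Fin m', Fin (push m L s b)) ↪ (Σ i : Fin m, Fin (s i)),
      (∀ x, L (g x).1 = x.1) ∧ ∀ y : Σ i : Fin m, Fin (s i), L y.1 < m' → y ∈ Set.range g := by
  classical
  have hc : ∀ b : ℕ, Fintype.card {y : Σ i : Fin m, Fin (s i) // L y.1 = b} = push m L s b := by
    intro b
    have e : (univ.filter fun y : Σ i : Fin m, Fin (s i) => L y.1 = b)
        = (univ : Finset (Fin m)).sigma (fun i => univ.filter (fun _ : Fin (s i) => L i = b)) := by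
      ext y
      simp only [mem_filter, mem_univ, true_and, mem_sigma]
    rw [Fintype.card_subtype, e, card_sigma]
    unfold push
    rw [Finset.sum_range (fun i => if L i = b then s i else 0)]
    refine sum_congr rfl fun i _ => ?_
    split_ifs with h
    · simp [h]
    · simp [h]
  let e : ∀ b : ℕ, Fin (push m L s b) ≃ {y : Σ i : Fin m, Fin (s i) // L y.1 = b} := fun b =>
    (Fintype.equivFinOfCardEq (hc b)).symm
  refine ⟨⟨fun x => (e x.1 x.2).1, ?_⟩, fun x => (e x.1 x.2).2, ?_⟩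
  · rintro ⟨b, t⟩ ⟨b', t'⟩ h
    replace h : ((e b t).1 : Σ i : Fin m, Fin (s i)) = (e b' t').1 := h
    have h1 := (e b t).2
    have h2 := (e b' t').2
    have h3 : b = b' := by
      apply Fin.ext
      rw [← h1, ← h2, h]
    subst h3
    have h4 : t = t' := (e b).injective (Subtype.ext h)
    rw [h4]
  · intro y hy
    refine ⟨⟨⟨L y.1, hy⟩, (e (L y.1)).symm ⟨y, rfl⟩⟩, ?_⟩
    change (e (L y.1) ((e (L y.1)).symm ⟨y, rfl⟩)).1 = y
    rw [Equiv.apply_symm_apply]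

/-- relabelling rule: blocks with the same label are merged, blocks with labels from `m'` on are
dropped -/
theorem Eb_rel {J : Type} [Finite J] (j₀ : J) (m m' : ℕ) (L r : ℕ → ℕ)
    (h1 : ∀ b, b < m' → r b < m ∧ L (r b) = b) (h2 : ∀ b b', b < b' → b' < m' → r b < r b')
    (h3 : ∀ k, k < m → L k < m' → k ≤ r (L k)) (P P' : J → ℕ → ℕ → Prop)
    (hA : ∀ j x y, x < m → y < m → L x < m' → L y < m' → (P' j x y ↔ P j (L x) (L y)))
    (hB : ∀ j x y, x < m → y < m → (m' ≤ L x ∨ m' ≤ L y) → (P' j x y ↔ P' j₀ x y))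
    (Φ : (J → Prop) → ℝ) :
    Eb X m (fun W => Φ (fun j => W (P' j))) = Eb X m' (fun W => Φ (fun j => W (P j))) := by
  classical
  have hb := BF.fin P Φ
  have hb2 := hb.bs X (m := m')
  have key := IM_push m m' L r hb2 ?_ h1 h2 h3
  · unfold Eb
    rw [← key]
    refine IM_congr m fun s _ => ?_
    obtain ⟨g, hg, hg'⟩ := exists_lab m m' L s
    have h4 := X.E_loc g j₀ (fun j (c : Fin 2 → Σ i : Fin m, Fin (s i)) =>
      P' j (c 0).1 (c 1).1) ?_ Φ
    · refine Eq.trans h4 ?_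
      congr 1
      funext U
      congr 1
      funext j
      unfold blk
      congr 1
      funext c
      refine propext ?_
      rw [hA j _ _ (g (c 0)).1.2 (g (c 1)).1.2 (by rw [hg]; exact (c 0).1.2)
        (by rw [hg]; exact (c 1).1.2), hg, hg]
    · rintro c ⟨t, ht⟩ j
      refine hB j _ _ (c 0).1.2 (c 1).1.2 ?_
      have h5 : m' ≤ L (c t).1 := by
        by_contra h
        exact ht (hg' _ (by omega))
      fin_cases t
      · exact Or.inl h5
      · exact Or.inr h5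
  · intro s s' hs
    have e : (fun i : Fin m' => s i) = fun i : Fin m' => s' i := by
      funext i
      exact hs i i.2
    change (fun n : Fin m' → ℕ => X.E (Σ i : Fin m', Fin (n i))
      (fun U => Φ (fun j => blk m' n U (P j)))) (fun i : Fin m' => s i)
      = (fun n : Fin m' → ℕ => X.E (Σ i : Fin m', Fin (n i))
      (fun U => Φ (fun j => blk m' n U (P j)))) (fun i : Fin m' => s' i)
    rw [e]

end Pool.Agent.J6H53.PB
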