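import Mathlib
import Pool.Agent.J6H53.PB.Blk

set_option autoImplicit false

/-!
# Indiscernible sequences of block patterns
-/

namespace Pool.Agent.J6H53.PB

open Finset Pool.Agent.TH7.DH Pool.Agent.TH635.BV

variable (X : Fam)

lemma lim_nonneg {x C : ℝ} (h : ∀ N : ℕ, 0 < N → 0 ≤ x + 2 * C / N) : 0 ≤ x := by
  refine le_of_forall_pos_le_add fun ε hε => ?_
  obtain ⟨N, hN⟩ := exists_nat_gt (2 * C / ε)
  have h1 := h (N + 1) (by omega)
  have h2 : 2 * C / ((N + 1 : ℕ) : ℝ) ≤ ε := by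
    rw [div_lt_iff₀ hε] at hN
    rw [div_le_iff₀ (by positivity)]
    push_cast
    nlinarith
  linarith

lemma core (hX : X.Bad) (m N : ℕ) (hN : 0 < N) {h : ((ℕ → ℕ → Prop) → Prop) → ℝ}
    {g : ℕ → ((ℕ → ℕ → Prop) → Prop) → ℝ} (hh : BF h) (hg : ∀ i, BF (g i)) {A α γ C : ℝ}
    (hA : Eb X m (fun W => h W * h W) = A)
    (hα : ∀ i, i < N → Eb X m (fun W => h W * g i W) = α)
    (hγ : ∀ i j, i < j → j < N → Eb X m (fun W => g i W * g j W) = γ)
    (hC : ∀ i, i < N → Eb X m (fun W => g i W * g i W) ≤ C) (hC' : -C ≤ γ) (t : ℝ) :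
    0 ≤ (t ^ 2 * A - 2 * t * α + γ) + 2 * C / N := by
  have hN' : (0 : ℝ) < N := by exact_mod_cast hN
  have e : ∀ W, (t * h W - (1 / N) * ∑ i ∈ range N, g i W) ^ 2
      = t ^ 2 * (h W * h W) + ((-2 * t / N) * (∑ i ∈ range N, h W * g i W)
        + (1 / (N : ℝ) ^ 2) * ∑ i ∈ range N, ∑ j ∈ range N, g i W * g j W) := by
    intro W
    have h1 : ∑ i ∈ range N, ∑ j ∈ range N, g i W * g j W
        = (∑ i ∈ range N, g i W) * ∑ i ∈ range N, g i W := by
      rw [sum_mul_sum]
    rw [h1, ← mul_sum]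
    field_simp
    ring
  have b1 : BF (fun W => h W * h W) := hh.mul hh
  have b2 : ∀ i, BF (fun W => h W * g i W) := fun i => hh.mul (hg i)
  have b3 : ∀ i j, BF (fun W => g i W * g j W) := fun i j => (hg i).mul (hg j)
  have b4 : ∀ i, BF (fun W => ∑ j ∈ range N, g i W * g j W) := fun i =>
    BF.sum (range N) (Ψ := fun j W => g i W * g j W) fun j => b3 i j
  have b5 : BF (fun W => ∑ i ∈ range N, ∑ j ∈ range N, g i W * g j W) :=
    BF.sum (range N) (Ψ := fun i W => ∑ j ∈ range N, g i W * g j W) b4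
  have b6 : BF (fun W => ∑ i ∈ range N, h W * g i W) :=
    BF.sum (range N) (Ψ := fun i W => h W * g i W) b2
  have h0 : 0 ≤ Eb X m (fun W => t ^ 2 * (h W * h W) + ((-2 * t / N) * (∑ i ∈ range N, h W * g i W)
        + (1 / (N : ℝ) ^ 2) * ∑ i ∈ range N, ∑ j ∈ range N, g i W * g j W)) := by
    rw [← Eb_const X m 0]
    refine Eb_mono X hX m (BF.const 0) ((b1.smul _).add ((b6.smul _).add (b5.smul _))) ?_
    intro W _
    rw [← e]
    exact sq_nonneg _
  rw [Eb_add X m (b1.smul _) ((b6.smul _).add (b5.smul _)), Eb_add X m (b6.smul _) (b5.smul _),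
    Eb_smul X m _ b1, Eb_smul X m _ b6, Eb_smul X m _ b5,
    Eb_sum X m (range N) (Ψ := fun i W => h W * g i W) b2,
    Eb_sum X m (range N) (Ψ := fun i W => ∑ j ∈ range N, g i W * g j W) b4, hA] at h0
  have h1 : ∑ i ∈ range N, Eb X m (fun W => h W * g i W) = N * α := by
    rw [sum_congr rfl fun i hi => hα i (mem_range.1 hi), sum_const, card_range, nsmul_eq_mul]
  have h2 : ∑ i ∈ range N, Eb X m (fun W => ∑ j ∈ range N, g i W * g j W)
      ≤ ∑ i ∈ range N, ∑ j ∈ range N, (γ + if i = j then 2 * C else 0) := by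
    refine sum_le_sum fun i hi => ?_
    rw [Eb_sum X m (range N) (Ψ := fun j W => g i W * g j W) fun j => b3 i j]
    refine sum_le_sum fun j hj => ?_
    have hi' := mem_range.1 hi
    have hj' := mem_range.1 hj
    rcases lt_trichotomy i j with h3 | h3 | h3
    · rw [hγ i j h3 hj', if_neg (by omega), add_zero]
    · subst h3
      rw [if_pos rfl]
      have := hC i hi'
      linarith
    · have h4 : (fun W => g i W * g j W) = fun W => g j W * g i W := by
        funext W
        ring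
      rw [h4, hγ j i h3 hi', if_neg (by omega), add_zero]
  have h3 : ∑ i ∈ range N, ∑ j ∈ range N, (γ + if i = j then 2 * C else 0)
      = N ^ 2 * γ + N * (2 * C) := by
    have : ∀ i ∈ range N, ∑ j ∈ range N, (γ + if i = j then 2 * C else 0) = N * γ + 2 * C := by
      intro i hi
      rw [sum_add_distrib, sum_const, card_range, nsmul_eq_mul, sum_ite_eq, if_pos hi]
    rw [sum_congr rfl this, sum_const, card_range, nsmul_eq_mul]
    ring
  rw [h3] at h2
  rw [h1] at h0
  have h4 : (1 / (N : ℝ) ^ 2) * ∑ i ∈ range N, Eb X m (fun W => ∑ j ∈ range N, g i W * g j W)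
      ≤ (1 / (N : ℝ) ^ 2) * (N ^ 2 * γ + N * (2 * C)) :=
    mul_le_mul_of_nonneg_left h2 (by positivity)
  have h5 : (1 / (N : ℝ) ^ 2) * (N ^ 2 * γ + N * (2 * C)) = γ + 2 * C / N := by
    field_simp
  have h6 : -2 * t / N * (N * α) = - (2 * t * α) := by
    field_simp
  rw [h6] at h0
  rw [h5] at h4
  linarith

/-- labels of the blocks: `p` blocks, then `n` blocks with the label `p` before block number `i`,
`p + 1` at it and `p + 2` after it, then other blocks -/
def lam (p n i k : ℕ) : ℕ :=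
  if k < p then k else if k < p + i then p else if k = p + i then p + 1
  else if k < p + n then p + 2 else k + 3 - n

/-- labels of the blocks: `p` blocks, then `n` blocks with the label `p`, then other blocks -/
def lamh (p n k : ℕ) : ℕ := if k < p then k else if k < p + n then p else k + 1 - n

/-- relabelled pattern -/
def cp (P : ℕ → ℕ → Prop) (L : ℕ → ℕ) : ℕ → ℕ → Prop := fun i j => P (L i) (L j)

variable {J J' : Type} [Finite J] [Finite J']

lemma bf_cp (P : J → ℕ → ℕ → Prop) (L : ℕ → ℕ) (G : (J → Prop) → ℝ) :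
    BF (fun W => G (fun a => W (cp (P a) L))) := BF.fin (fun a => cp (P a) L) G

/-- the map onto the five classes of blocks given by two positions -/
def L5 (p n i j k : ℕ) : ℕ :=
  if k < p then k else if k < p + i then p else if k = p + i then p + 1
  else if k < p + j then p + 2 else if k = p + j then p + 3 else if k < p + n then p + 4
  else k + 5 - n

/-- last elements of the classes -/
def r5 (p n i j b : ℕ) : ℕ :=
  if b < p then b else if b = p then p + i - 1 else if b = p + 1 then p + i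
  else if b = p + 2 then p + j - 1 else if b = p + 3 then p + j
  else if b = p + 4 then p + n - 1 else b + n - 5

/-- the map onto the three classes of blocks given by a position -/
def L3 (p n i k : ℕ) : ℕ :=
  if k < p then k else if k < p + i then p else if k = p + i then p + 1
  else if k < p + n then p + 2 else k + 3 - n

/-- last elements of the classes -/
def r3 (p n i b : ℕ) : ℕ :=
  if b < p then b else if b = p then p + i - 1 else if b = p + 1 then p + i
  else if b = p + 2 then p + n - 1 else b + n - 3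

lemma L5_lt {p n i j k q : ℕ} (h : k < p + n + q) : L5 p n i j k < p + 5 + q := by
  unfold L5
  split_ifs <;> omega

lemma L3_lt {p n i k q : ℕ} (h : k < p + n + q) : L3 p n i k < p + 3 + q := by
  unfold L3
  split_ifs <;> omega

lemma r5_lt {p n i j b q : ℕ} (hi : 1 ≤ i) (hij : i + 2 ≤ j) (hj : j + 2 ≤ n)
    (h : b < p + 5 + q) : r5 p n i j b < p + n + q := by
  unfold r5
  split_ifs <;> omega

lemma r3_lt {p n i b q : ℕ} (hi : 1 ≤ i) (hj : i + 2 ≤ n)
    (h : b < p + 3 + q) : r3 p n i b < p + n + q := by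
  unfold r3
  split_ifs <;> omega

lemma r5_mono {p n i j b b' : ℕ} (hi : 1 ≤ i) (hij : i + 2 ≤ j) (hj : j + 2 ≤ n)
    (h : b < b') : r5 p n i j b < r5 p n i j b' := by
  unfold r5
  split_ifs <;> omega

lemma r3_mono {p n i b b' : ℕ} (hi : 1 ≤ i) (hj : i + 2 ≤ n)
    (h : b < b') : r3 p n i b < r3 p n i b' := by
  unfold r3
  split_ifs <;> omega

lemma L5_r5 {p n i j b : ℕ} (hi : 1 ≤ i) (hij : i + 2 ≤ j) (hj : j + 2 ≤ n) :
    L5 p n i j (r5 p n i j b) = b := by
  unfold r5
  split_ifs with h1 h2 h3 h4 h5 h6 <;> unfold L5 <;> split_ifs <;> omega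

lemma L3_r3 {p n i b : ℕ} (hi : 1 ≤ i) (hj : i + 2 ≤ n) :
    L3 p n i (r3 p n i b) = b := by
  unfold r3
  split_ifs with h1 h2 h3 h4 <;> unfold L3 <;> split_ifs <;> omega

lemma le_r5 {p n i j k : ℕ} (hi : 1 ≤ i) (hij : i + 2 ≤ j) (hj : j + 2 ≤ n) :
    k ≤ r5 p n i j (L5 p n i j k) := by
  unfold L5
  split_ifs with h1 h2 h3 h4 h5 h6 <;> unfold r5 <;> split_ifs <;> omega

lemma le_r3 {p n i k : ℕ} (hi : 1 ≤ i) (hj : i + 2 ≤ n) :
    k ≤ r3 p n i (L3 p n i k) := by
  unfold L3
  split_ifs with h1 h2 h3 h4 <;> unfold r3 <;> split_ifs <;> omega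

lemma lam_L5 {p n i j k : ℕ} (hij : i + 2 ≤ j) (hj : j + 2 ≤ n) :
    lam p n i k = lam p 5 1 (L5 p n i j k) := by
  unfold L5
  split_ifs with h1 h2 h3 h4 h5 h6 <;> unfold lam <;> split_ifs <;> omega

lemma lam_L5' {p n i j k : ℕ} (hij : i + 2 ≤ j) (hj : j + 2 ≤ n) :
    lam p n j k = lam p 5 3 (L5 p n i j k) := by
  unfold L5
  split_ifs with h1 h2 h3 h4 h5 h6 <;> unfold lam <;> split_ifs <;> omega

lemma lam_L3 {p n i k : ℕ} (hj : i + 2 ≤ n) :
    lam p n i k = lam p 3 1 (L3 p n i k) := by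
  unfold L3
  split_ifs with h1 h2 h3 h4 <;> unfold lam <;> split_ifs <;> omega

lemma lamh_L3 {p n i k : ℕ} (hj : i + 2 ≤ n) :
    lamh p n k = lamh p 3 (L3 p n i k) := by
  unfold L3
  split_ifs with h1 h2 h3 h4 <;> unfold lamh <;> split_ifs <;> omega

theorem pair_rule (a₀ : J) (P : J → ℕ → ℕ → Prop) (R G : (J → Prop) → ℝ) (p q : ℕ)
    {n i j : ℕ} (hi : 1 ≤ i) (hij : i + 2 ≤ j) (hj : j + 2 ≤ n) :
    Eb X (p + n + q) (fun W => R (fun a => W (cp (P a) (lam p n i)))
        * G (fun a => W (cp (P a) (lam p n j))))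
      = Eb X (p + 5 + q) (fun W => R (fun a => W (cp (P a) (lam p 5 1)))
        * G (fun a => W (cp (P a) (lam p 5 3)))) := by
  refine Eb_rel X (J := Bool × J) (false, a₀) (p + n + q) (p + 5 + q) (L5 p n i j) (r5 p n i j)
    (fun b hb => ⟨r5_lt hi hij hj hb, L5_r5 hi hij hj⟩)
    (fun b b' hb _ => r5_mono hi hij hj hb) (fun k _ _ => le_r5 hi hij hj)
    (fun x => cp (P x.2) (bif x.1 then lam p 5 3 else lam p 5 1))
    (fun x => cp (P x.2) (bif x.1 then lam p n j else lam p n i)) ?_ ?_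
    (fun v => R (fun a => v (false, a)) * G (fun a => v (true, a)))
  · rintro ⟨b, a⟩ x y hx hy _ _
    cases b
    · simp only [cp, cond_false]
      rw [← lam_L5 hij hj, ← lam_L5 hij hj]
    · simp only [cp, cond_true]
      rw [← lam_L5' hij hj, ← lam_L5' hij hj]
  · intro j' x y hx hy h
    have h1 := L5_lt (i := i) (j := j) hx
    have h2 := L5_lt (i := i) (j := j) hy
    omega

theorem h_rule (a₀ : J) (P : J → ℕ → ℕ → Prop) (Q : J' → ℕ → ℕ → Prop) (H : (J' → Prop) → ℝ)
    (G : (J → Prop) → ℝ) (p q : ℕ) {n i : ℕ} (hi : 1 ≤ i) (hn : i + 2 ≤ n) :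
    Eb X (p + n + q) (fun W => H (fun a => W (cp (Q a) (lamh p n)))
        * G (fun a => W (cp (P a) (lam p n i))))
      = Eb X (p + 3 + q) (fun W => H (fun a => W (cp (Q a) (lamh p 3)))
        * G (fun a => W (cp (P a) (lam p 3 1)))) := by
  refine Eb_rel X (J := J' ⊕ J) (Sum.inr a₀) (p + n + q) (p + 3 + q) (L3 p n i) (r3 p n i)
    (fun b hb => ⟨r3_lt hi hn hb, L3_r3 hi hn⟩)
    (fun b b' hb _ => r3_mono hi hn hb) (fun k _ _ => le_r3 hi hn)
    (Sum.elim (fun a => cp (Q a) (lamh p 3)) (fun a => cp (P a) (lam p 3 1)))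
    (Sum.elim (fun a => cp (Q a) (lamh p n)) (fun a => cp (P a) (lam p n i))) ?_ ?_
    (fun v => H (fun a => v (Sum.inl a)) * G (fun a => v (Sum.inr a)))
  · rintro (a | a) x y hx hy _ _
    · simp only [cp, Sum.elim_inl]
      rw [← lamh_L3 hn, ← lamh_L3 hn]
    · simp only [cp, Sum.elim_inr]
      rw [← lam_L3 hn, ← lam_L3 hn]
  · intro j' x y hx hy h
    have h1 := L3_lt (i := i) hx
    have h2 := L3_lt (i := i) hy
    omega

theorem hh_rule (a₀ : J') (Q : J' → ℕ → ℕ → Prop) (Φ : (J' → Prop) → ℝ) (p q : ℕ) {n : ℕ}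
    (hn : 1 ≤ n) :
    Eb X (p + n + q) (fun W => Φ (fun a => W (cp (Q a) (lamh p n))))
      = Eb X (p + 1 + q) (fun W => Φ (fun a => W (Q a))) := by
  refine Eb_rel X (J := J') a₀ (p + n + q) (p + 1 + q) (lamh p n)
    (fun b => if b < p then b else b + n - 1) ?_ ?_ ?_ Q (fun a => cp (Q a) (lamh p n)) ?_ ?_ Φ
  · intro b hb
    unfold lamh
    constructor
    · split_ifs <;> omega
    · split_ifs <;> omega
  · intro b b' hb hb'
    split_ifs <;> omega
  · intro k hk hk'
    unfold lamh at *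
    split_ifs at * <;> omega
  · intro a x y _ _ _ _
    exact Iff.rfl
  · intro j' x y hx hy h
    exfalso
    unfold lamh at h
    rcases h with h | h <;> revert h <;> split_ifs <;> omega

lemma absm {x y B : ℝ} (h : |x - y| ≤ B) : (x + (-1) * y) * (x + (-1) * y) ≤ B * B := by
  have e : x + (-1) * y = x - y := by ring
  have hB : 0 ≤ B := (abs_nonneg _).trans h
  rw [e]
  refine (le_abs_self _).trans ?_
  rw [abs_mul]
  exact mul_le_mul h h (abs_nonneg _) hB

lemma fin_bdd (G : (J → Prop) → ℝ) : ∃ B : ℝ, 0 ≤ B ∧ ∀ v, |G v| ≤ B := by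
  obtain ⟨B, hB⟩ := (Set.finite_range (fun v => |G v|)).bddAbove
  exact ⟨max B 0, le_max_right _ _, fun v => (hB ⟨v, rfl⟩).trans (le_max_left _ _)⟩

lemma eq_of_quad {d A : ℝ} (hA : 0 ≤ A) (h : ∀ t : ℝ, 0 ≤ t ^ 2 * A - 2 * t * d + 0) : d = 0 := by
  by_contra hd
  have h1 := h (d / (A + 1))
  have h2 : (d / (A + 1)) ^ 2 * A - 2 * (d / (A + 1)) * d + 0
      = - (d ^ 2 * (A + 2) / (A + 1) ^ 2) := by
    field_simp
    ring
  rw [h2] at h1
  have h3 : 0 < d ^ 2 * (A + 2) / (A + 1) ^ 2 := by positivity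
  linarith

/-- Cauchy-Schwarz along an indiscernible sequence -/
theorem chain_cs (hX : X.Bad) (a₀ : J) (b₀ : J') (P : J → ℕ → ℕ → Prop) (Q : J' → ℕ → ℕ → Prop)
    (H : (J' → Prop) → ℝ) (G : (J → Prop) → ℝ) (p q : ℕ) (t : ℝ) :
    0 ≤ t ^ 2 * Eb X (p + 1 + q) (fun W => H (fun a => W (Q a)) * H (fun a => W (Q a)))
      - 2 * t * Eb X (p + 3 + q) (fun W => H (fun a => W (cp (Q a) (lamh p 3)))
        * G (fun a => W (cp (P a) (lam p 3 1))))
      + Eb X (p + 5 + q) (fun W => G (fun a => W (cp (P a) (lam p 5 1)))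
        * G (fun a => W (cp (P a) (lam p 5 3)))) := by
  obtain ⟨B, hB0, hB⟩ := fin_bdd G
  have hsq : ∀ v v', |G v * G v'| ≤ B * B := fun v v' => by
    rw [abs_mul]
    exact mul_le_mul (hB v) (hB v') (abs_nonneg _) hB0
  refine lim_nonneg (C := B * B) fun N hN => ?_
  refine core X hX (p + (2 * N + 3) + q) N hN
    (h := fun W => H (fun a => W (cp (Q a) (lamh p (2 * N + 3)))))
    (g := fun i W => G (fun a => W (cp (P a) (lam p (2 * N + 3) (2 * i + 1)))))
    (bf_cp _ _ _) (fun i => bf_cp _ _ _) ?_ ?_ ?_ ?_ ?_ t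
  · exact hh_rule X b₀ Q (fun v => H v * H v) p q (by omega)
  · intro i hi
    exact h_rule X a₀ P Q H G p q (by omega) (by omega)
  · intro i j hij hj
    exact pair_rule X a₀ P G G p q (by omega) (by omega) (by omega)
  · intro i hi
    rw [← Eb_const X (p + (2 * N + 3) + q) (B * B)]
    refine Eb_mono X hX _ ((bf_cp _ _ _).mul (bf_cp _ _ _)) (BF.const _) fun W _ => ?_
    exact (abs_le.1 (hsq _ _)).2
  · rw [← Eb_const X (p + 5 + q) (-(B * B))]
    refine Eb_mono X hX _ (BF.const _) ((bf_cp _ _ _).mul (bf_cp _ _ _)) fun W _ => ?_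
    exact (abs_le.1 (hsq _ _)).1

/-- symmetry along an indiscernible sequence -/
theorem chain_sym (hX : X.Bad) (a₀ : J) (P : J → ℕ → ℕ → Prop) (R G : (J → Prop) → ℝ) (p q : ℕ) :
    Eb X (p + 5 + q) (fun W => R (fun a => W (cp (P a) (lam p 5 1)))
        * G (fun a => W (cp (P a) (lam p 5 3))))
      = Eb X (p + 5 + q) (fun W => G (fun a => W (cp (P a) (lam p 5 1)))
        * R (fun a => W (cp (P a) (lam p 5 3)))) := by
  set α := Eb X (p + 5 + q) (fun W => R (fun a => W (cp (P a) (lam p 5 1)))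
        * G (fun a => W (cp (P a) (lam p 5 3)))) with hα
  set β := Eb X (p + 5 + q) (fun W => G (fun a => W (cp (P a) (lam p 5 1)))
        * R (fun a => W (cp (P a) (lam p 5 3)))) with hβ
  obtain ⟨B, hB0, hB⟩ := fin_bdd G
  obtain ⟨B', hB0', hB'⟩ := fin_bdd R
  have h2B : ∀ v v', |G v - G v'| ≤ 2 * B := fun v v' => by
    have := abs_sub (G v) (G v')
    have h1 := hB v
    have h2 := hB v'
    linarith
  have key : ∀ t : ℝ, 0 ≤ t ^ 2 * (B' * B') - 2 * t * (β - α) + 0 := by
    intro t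
    refine lim_nonneg (C := 2 * B * (2 * B)) fun N hN => ?_
    have hμ : Eb X (p + (4 * N + 5) + q) (fun W => R (fun a => W (cp (P a)
        (lam p (4 * N + 5) (2 * N + 1)))) * R (fun a => W (cp (P a)
        (lam p (4 * N + 5) (2 * N + 1))))) ≤ B' * B' := by
      rw [← Eb_const X (p + (4 * N + 5) + q) (B' * B')]
      refine Eb_mono X hX _ ((bf_cp _ _ _).mul (bf_cp _ _ _)) (BF.const _) fun W _ => ?_
      refine (le_abs_self _).trans ?_
      rw [abs_mul]
      exact mul_le_mul (hB' _) (hB' _) (abs_nonneg _) hB0'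
    have h0 := core X hX (p + (4 * N + 5) + q) N hN
      (h := fun W => R (fun a => W (cp (P a) (lam p (4 * N + 5) (2 * N + 1)))))
      (g := fun i W => G (fun a => W (cp (P a) (lam p (4 * N + 5) (2 * i + 1))))
        + (-1) * G (fun a => W (cp (P a) (lam p (4 * N + 5) (2 * N + 3 + 2 * i)))))
      (bf_cp _ _ _) (fun i => (bf_cp _ _ _).add ((bf_cp _ _ _).smul _)) rfl
      (α := β - α) (γ := 0) (C := 2 * B * (2 * B)) ?_ ?_ ?_ ?_ t
    · have : t ^ 2 * Eb X (p + (4 * N + 5) + q) (fun W => R (fun a => W (cp (P a)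
        (lam p (4 * N + 5) (2 * N + 1)))) * R (fun a => W (cp (P a)
        (lam p (4 * N + 5) (2 * N + 1))))) ≤ t ^ 2 * (B' * B') :=
        mul_le_mul_of_nonneg_left hμ (sq_nonneg t)
      linarith
    · intro i hi
      have e : (fun W : (ℕ → ℕ → Prop) → Prop => R (fun a => W (cp (P a) (lam p (4 * N + 5) (2 * N + 1))))
          * (G (fun a => W (cp (P a) (lam p (4 * N + 5) (2 * i + 1))))
          + (-1) * G (fun a => W (cp (P a) (lam p (4 * N + 5) (2 * N + 3 + 2 * i))))))
          = fun W => G (fun a => W (cp (P a) (lam p (4 * N + 5) (2 * i + 1))))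
            * R (fun a => W (cp (P a) (lam p (4 * N + 5) (2 * N + 1))))
            + (-1) * (R (fun a => W (cp (P a) (lam p (4 * N + 5) (2 * N + 1))))
            * G (fun a => W (cp (P a) (lam p (4 * N + 5) (2 * N + 3 + 2 * i))))) := by
        funext W
        ring
      rw [e, Eb_add X _ ((bf_cp _ _ _).mul (bf_cp _ _ _)) (((bf_cp _ _ _).mul (bf_cp _ _ _)).smul _),
        Eb_smul X _ _ ((bf_cp _ _ _).mul (bf_cp _ _ _)),
        pair_rule X a₀ P G R p q (n := 4 * N + 5) (i := 2 * i + 1) (j := 2 * N + 1) (by omega)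
          (by omega) (by omega),
        pair_rule X a₀ P R G p q (n := 4 * N + 5) (i := 2 * N + 1) (j := 2 * N + 3 + 2 * i)
          (by omega) (by omega) (by omega), ← hα, ← hβ]
      ring
    · intro i j hij hj
      have e : (fun W : (ℕ → ℕ → Prop) → Prop =>
          (G (fun a => W (cp (P a) (lam p (4 * N + 5) (2 * i + 1))))
          + (-1) * G (fun a => W (cp (P a) (lam p (4 * N + 5) (2 * N + 3 + 2 * i)))))
          * (G (fun a => W (cp (P a) (lam p (4 * N + 5) (2 * j + 1))))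
          + (-1) * G (fun a => W (cp (P a) (lam p (4 * N + 5) (2 * N + 3 + 2 * j))))))
          = fun W => (G (fun a => W (cp (P a) (lam p (4 * N + 5) (2 * i + 1))))
              * G (fun a => W (cp (P a) (lam p (4 * N + 5) (2 * j + 1))))
            + (-1) * (G (fun a => W (cp (P a) (lam p (4 * N + 5) (2 * i + 1))))
              * G (fun a => W (cp (P a) (lam p (4 * N + 5) (2 * N + 3 + 2 * j))))))
            + ((-1) * (G (fun a => W (cp (P a) (lam p (4 * N + 5) (2 * j + 1))))
              * G (fun a => W (cp (P a) (lam p (4 * N + 5) (2 * N + 3 + 2 * i)))))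
            + (G (fun a => W (cp (P a) (lam p (4 * N + 5) (2 * N + 3 + 2 * i))))
              * G (fun a => W (cp (P a) (lam p (4 * N + 5) (2 * N + 3 + 2 * j)))))) := by
        funext W
        ring
      have b : ∀ i j, BF (fun W => G (fun a => W (cp (P a) (lam p (4 * N + 5) i)))
          * G (fun a => W (cp (P a) (lam p (4 * N + 5) j)))) := fun i j =>
        (bf_cp _ _ _).mul (bf_cp _ _ _)
      rw [e, Eb_add X _ ((b _ _).add ((b _ _).smul _)) (((b _ _).smul _).add (b _ _)),
        Eb_add X _ (b _ _) ((b _ _).smul _), Eb_add X _ ((b _ _).smul _) (b _ _),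
        Eb_smul X _ _ (b _ _), Eb_smul X _ _ (b _ _),
        pair_rule X a₀ P G G p q (n := 4 * N + 5) (i := 2 * i + 1) (j := 2 * j + 1)
          (by omega) (by omega) (by omega),
        pair_rule X a₀ P G G p q (n := 4 * N + 5) (i := 2 * i + 1) (j := 2 * N + 3 + 2 * j)
          (by omega) (by omega) (by omega),
        pair_rule X a₀ P G G p q (n := 4 * N + 5) (i := 2 * j + 1) (j := 2 * N + 3 + 2 * i)
          (by omega) (by omega) (by omega),
        pair_rule X a₀ P G G p q (n := 4 * N + 5) (i := 2 * N + 3 + 2 * i)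
          (j := 2 * N + 3 + 2 * j) (by omega) (by omega) (by omega)]
      ring
    · intro i hi
      rw [← Eb_const X (p + (4 * N + 5) + q) (2 * B * (2 * B))]
      have b := (bf_cp P (lam p (4 * N + 5) (2 * i + 1)) G).add
        ((bf_cp P (lam p (4 * N + 5) (2 * N + 3 + 2 * i)) G).smul (-1))
      refine Eb_mono X hX _ (b.mul b) (BF.const _) fun W _ => ?_
      exact absm (h2B _ _)
    · have : 0 ≤ 2 * B * (2 * B) := by positivity
      linarith
  have := eq_of_quad (mul_nonneg hB0' hB0') key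
  linarith

end Pool.Agent.J6H53.PB
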