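import Mathlib
import Pool.Agent.J6H53.PB.Chain

set_option autoImplicit false

/-!
# Pair correlations of block patterns
-/

namespace Pool.Agent.J6H53.PB

open Finset Pool.Agent.TH7.DH Pool.Agent.TH635.BV

/-- Boolean patterns as relations -/
def lf (P : ℕ → ℕ → Bool) : ℕ → ℕ → Prop := fun i j => P i j = true

/-- relabelled Boolean pattern -/
def cb (P : ℕ → ℕ → Bool) (L : ℕ → ℕ) : ℕ → ℕ → Bool := fun i j => P (L i) (L j)

/-- the pattern with the code `x` -/
def tb (x i j : ℕ) : Bool := Nat.testBit x (16 * i + j)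

/-- digits -/
def dg (c i : ℕ) : ℕ := (c >>> (4 * i)) % 16

/-- bounded quantifier -/
def allN : ℕ → (ℕ → Bool) → Bool
  | 0, _ => true
  | n + 1, f => f n && allN n f

lemma allN_iff (n : ℕ) (f : ℕ → Bool) : allN n f = true ↔ ∀ i, i < n → f i = true := by
  induction n with
  | zero => simp [allN]
  | succ n ih =>
    rw [allN, Bool.and_eq_true, ih]
    constructor
    · rintro ⟨h1, h2⟩ i hi
      rcases Nat.lt_succ_iff_lt_or_eq.1 hi with h | h
      · exact h2 i h
      · rw [h]; exact h1
    · intro h
      exact ⟨h n (by omega), fun i hi => h i (by omega)⟩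

/-- the conditions of the relabelling rule -/
def chk (m m' : ℕ) (P Q P' Q' : ℕ → ℕ → Bool) (L r : ℕ → ℕ) : Bool :=
  allN m' (fun b => decide (r b < m) && (L (r b) == b) && allN b (fun b' => decide (r b' < r b)))
  && allN m (fun k => decide (m' ≤ L k) || decide (k ≤ r (L k)))
  && allN m (fun i => allN m (fun j =>
    if decide (m' ≤ L i) || decide (m' ≤ L j) then P i j == Q i j
    else (P i j == P' (L i) (L j)) && (Q i j == Q' (L i) (L j))))

variable (X : Fam)

/-- pair correlation -/
noncomputable def kp (m : ℕ) (P Q : ℕ → ℕ → Bool) : ℝ :=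
  Eb X m (fun W => ff W (lf P) * ff W (lf Q))

lemma kp_comm (m : ℕ) (P Q : ℕ → ℕ → Bool) : kp X m P Q = kp X m Q P := by
  unfold kp
  congr 1
  funext W
  exact mul_comm _ _

theorem kp_rel {m m' : ℕ} {P Q P' Q' : ℕ → ℕ → Bool} {L r : ℕ → ℕ}
    (h : chk m m' P Q P' Q' L r = true) : kp X m P Q = kp X m' P' Q' := by
  classical
  unfold chk at h
  rw [Bool.and_eq_true, Bool.and_eq_true, allN_iff, allN_iff, allN_iff] at h
  obtain ⟨⟨h1, h2⟩, h3⟩ := h
  have h3' : ∀ i j, i < m → j < m →
      (if decide (m' ≤ L i) || decide (m' ≤ L j) then P i j == Q i j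
      else (P i j == P' (L i) (L j)) && (Q i j == Q' (L i) (L j))) = true := fun i j hi hj =>
    (allN_iff m _).1 (h3 i hi) j hj
  have e := Eb_rel X (J := Bool) false m m' L r ?_ ?_ ?_
    (fun b => lf (bif b then Q' else P')) (fun b => lf (bif b then Q else P)) ?_ ?_
    (fun v => (if v false then (1 : ℝ) else 0) * (if v true then (1 : ℝ) else 0))
  · have e1 : ∀ (m : ℕ) (P Q : ℕ → ℕ → Bool), kp X m P Q = Eb X m (fun W =>
        (fun v : Bool → Prop => (if v false then (1 : ℝ) else 0) * (if v true then (1 : ℝ) else 0))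
          (fun b => W (lf (bif b then Q else P)))) := by
      intro m P Q
      unfold kp
      congr 1
    rw [e1, e1]
    exact e
  · intro b hb
    have := h1 b hb
    simp only [Bool.and_eq_true, decide_eq_true_eq, beq_iff_eq] at this
    exact this.1
  · intro b b' hb hb'
    have := h1 b' hb'
    simp only [Bool.and_eq_true, decide_eq_true_eq, beq_iff_eq] at this
    have h4 := (allN_iff b' _).1 this.2 b hb
    simpa using h4
  · intro k hk hk'
    have := h2 k hk
    simp only [Bool.or_eq_true, decide_eq_true_eq] at this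
    rcases this with h4 | h4
    · omega
    · exact h4
  · intro b x y hx hy hx' hy'
    have h4 := h3' x y hx hy
    rw [if_neg (by simp; omega)] at h4
    simp only [Bool.and_eq_true, beq_iff_eq] at h4
    cases b
    · simp only [lf, cond_false, h4.1]
    · simp only [lf, cond_true, h4.2]
  · intro b x y hx hy hxy
    have h4 := h3' x y hx hy
    rw [if_pos (by simpa using hxy)] at h4
    rw [beq_iff_eq] at h4
    cases b
    · rfl
    · simp only [lf, cond_false, cond_true, h4]

/-- pair correlation of patterns with codes `x`, `y` on `m` blocks -/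
noncomputable def K (m x y : ℕ) : ℝ := kp X m (tb x) (tb y)

lemma K_comm (m x y : ℕ) : K X m x y = K X m y x := kp_comm X m _ _

/-- check that a pair of patterns reduces to the pair with codes `x`, `y` -/
def ck (M : ℕ) (P Q : ℕ → ℕ → Bool) (m x y L r : ℕ) : Bool :=
  chk M m P Q (tb x) (tb y) (dg L) (dg r)

lemma ck_ok {M : ℕ} {P Q : ℕ → ℕ → Bool} {m x y L r : ℕ} (h : ck M P Q m x y L r = true) :
    kp X M P Q = K X m x y := kp_rel X h

/-- symmetry along an indiscernible sequence -/
theorem sym_rule (hX : X.Bad) (p q : ℕ) (P Q : ℕ → ℕ → Bool) :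
    kp X (p + 5 + q) (cb P (lam p 5 1)) (cb Q (lam p 5 3))
      = kp X (p + 5 + q) (cb P (lam p 5 3)) (cb Q (lam p 5 1)) := by
  classical
  have h := chain_sym X hX (J := Bool) false (fun b => lf (bif b then Q else P))
    (fun v => if v false then (1 : ℝ) else 0) (fun v => if v true then (1 : ℝ) else 0) p q
  have e1 : ∀ (i j : ℕ) (W : (ℕ → ℕ → Prop) → Prop), ff W (lf (cb P (lam p 5 i)))
      = (fun v : Bool → Prop => if v false then (1 : ℝ) else 0)
        (fun a => W (cp (lf (bif a then Q else P)) (lam p 5 i))) := by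
    intro i j W
    unfold ff
    simp only [cond_false]
    congr
  have e2 : ∀ (i j : ℕ) (W : (ℕ → ℕ → Prop) → Prop), ff W (lf (cb Q (lam p 5 i)))
      = (fun v : Bool → Prop => if v true then (1 : ℝ) else 0)
        (fun a => W (cp (lf (bif a then Q else P)) (lam p 5 i))) := by
    intro i j W
    unfold ff
    simp only [cond_true]
    congr
  rw [kp_comm X _ (cb P (lam p 5 3))]
  unfold kp
  simp only [e1 1 0, e1 3 0, e2 1 0, e2 3 0]
  exact h

end Pool.Agent.J6H53.PB
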