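import Mathlib
import Pool.Agent.J6H53.PB.Kap

set_option autoImplicit false

/-!
# Positivity of the pair correlations along indiscernible sequences
-/

namespace Pool.Agent.J6H53.PB

open Finset Pool.Agent.TH7.DH Pool.Agent.TH635.BV

variable (X : Fam)

lemma Eb_ff (m : ℕ) (P : ℕ → ℕ → Prop) : Eb X m (fun W => ff W P) = X.D := by
  classical
  have h1 := Eb_rel X (J := Unit) () m 0 (fun _ => 0) (fun _ => 0) (fun b hb => by omega)
    (fun b b' _ hb => by omega) (fun k _ hk => by omega) (fun _ _ _ => True) (fun _ => P)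
    (fun j x y _ _ hx => by omega) (fun _ _ _ _ _ _ => Iff.rfl)
    (fun v => if v () then (1 : ℝ) else 0)
  have h2 : Eb X m (fun W => ff W P)
      = Eb X m (fun W => (fun v : Unit → Prop => if v () then (1 : ℝ) else 0) (fun _ => W P)) := by
    unfold ff
    rfl
  rw [h2, h1]
  have h3 := X.E_loc (ι := Σ i : Fin 0, Fin ((fun _ => 0 : ℕ → ℕ) i)) (ι' := Fin 0)
    ⟨Fin.elim0, fun x => x.elim0⟩ () (fun (_ : Unit) _ => True) (fun _ _ _ => Iff.rfl)
    (fun v => if v () then (1 : ℝ) else 0)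
  exact h3

lemma kp_self (m : ℕ) (P : ℕ → ℕ → Bool) : kp X m P P = X.D := by
  rw [← Eb_ff X m (lf P)]
  unfold kp
  congr 1
  funext W
  rcases ff01 W (lf P) with h | h <;> rw [h] <;> norm_num

lemma kp_nonneg (hX : X.Bad) (m : ℕ) (P Q : ℕ → ℕ → Bool) : 0 ≤ kp X m P Q := by
  rw [← Eb_const X m 0]
  refine Eb_mono X hX m (BF.const 0) ((BF.ff _).mul (BF.ff _)) fun W _ => ?_
  rcases ff01 W (lf P) with h | h <;> rcases ff01 W (lf Q) with h' | h' <;> rw [h, h'] <;> norm_num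

lemma kp_le_one (hX : X.Bad) (m : ℕ) (P Q : ℕ → ℕ → Bool) : kp X m P Q ≤ 1 := by
  rw [← Eb_const X m 1]
  refine Eb_mono X hX m ((BF.ff _).mul (BF.ff _)) (BF.const 1) fun W _ => ?_
  rcases ff01 W (lf P) with h | h <;> rcases ff01 W (lf Q) with h' | h' <;> rw [h, h'] <;> norm_num

open Classical in
/-- the linear function with the coefficients `c₀`, `c` -/
noncomputable def lin {n : ℕ} (c₀ : ℝ) (c : Fin n → ℝ) (v : Option (Fin n) → Prop) : ℝ :=
  c₀ + ∑ i, c i * (if v (some i) then (1 : ℝ) else 0)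

/-- positivity along an indiscernible sequence -/
theorem psd (hX : X.Bad) (p q : ℕ) {n : ℕ} (c₀ : ℝ) (c : Fin n → ℝ)
    (P : Fin n → ℕ → ℕ → Bool) :
    0 ≤ c₀ ^ 2 + 2 * c₀ * (∑ i, c i) * X.D + ∑ i, ∑ j, c i * c j *
      kp X (p + 5 + q) (cb (P i) (lam p 5 1)) (cb (P j) (lam p 5 3)) := by
  classical
  have h := chain_cs X hX (J := Option (Fin n)) (J' := Unit) none ()
    (fun a => lf (a.elim (fun _ _ => false) P)) (fun _ _ _ => True) (fun _ => 0) (lin c₀ c) p q 0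
  have e1 : ∀ (i : ℕ) (W : (ℕ → ℕ → Prop) → Prop), lin c₀ c
      (fun a => W (cp (lf (a.elim (fun _ _ => false) P)) (lam p 5 i)))
      = c₀ + ∑ a, c a * ff W (lf (cb (P a) (lam p 5 i))) := by
    intro i W
    unfold lin
    congr 1
  simp only [e1] at h
  have e2 : ∀ W : (ℕ → ℕ → Prop) → Prop, (c₀ + ∑ a, c a * ff W (lf (cb (P a) (lam p 5 1))))
      * (c₀ + ∑ a, c a * ff W (lf (cb (P a) (lam p 5 3))))
      = c₀ ^ 2 + (∑ i, (c₀ * c i) * ff W (lf (cb (P i) (lam p 5 1)))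
        + (∑ i, (c₀ * c i) * ff W (lf (cb (P i) (lam p 5 3)))
        + ∑ i, ∑ j, (c i * c j) * (ff W (lf (cb (P i) (lam p 5 1)))
          * ff W (lf (cb (P j) (lam p 5 3)))))) := by
    intro W
    have e3 : ∑ i, ∑ j, (c i * c j) * (ff W (lf (cb (P i) (lam p 5 1)))
          * ff W (lf (cb (P j) (lam p 5 3))))
        = (∑ i, c i * ff W (lf (cb (P i) (lam p 5 1))))
          * ∑ j, c j * ff W (lf (cb (P j) (lam p 5 3))) := by
      rw [sum_mul_sum]
      refine sum_congr rfl fun i _ => sum_congr rfl fun j _ => ?_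
      ring
    rw [e3]
    simp only [mul_assoc c₀, ← mul_sum]
    ring
  have b1 : ∀ (k : ℕ) (i : Fin n), BF (fun W => (c₀ * c i) * ff W (lf (cb (P i) (lam p 5 k)))) :=
    fun k i => (BF.ff _).smul _
  have b2 : ∀ k : ℕ, BF (fun W => ∑ i, (c₀ * c i) * ff W (lf (cb (P i) (lam p 5 k)))) := fun k =>
    BF.sum univ (Ψ := fun i W => (c₀ * c i) * ff W (lf (cb (P i) (lam p 5 k)))) (b1 k)
  have b3 : ∀ i j : Fin n, BF (fun W => (c i * c j) * (ff W (lf (cb (P i) (lam p 5 1)))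
          * ff W (lf (cb (P j) (lam p 5 3))))) := fun i j => ((BF.ff _).mul (BF.ff _)).smul _
  have b4 : ∀ i : Fin n, BF (fun W => ∑ j, (c i * c j) * (ff W (lf (cb (P i) (lam p 5 1)))
          * ff W (lf (cb (P j) (lam p 5 3))))) := fun i =>
    BF.sum univ (Ψ := fun j W => (c i * c j) * (ff W (lf (cb (P i) (lam p 5 1)))
          * ff W (lf (cb (P j) (lam p 5 3))))) (b3 i)
  have b5 : BF (fun W => ∑ i, ∑ j, (c i * c j) * (ff W (lf (cb (P i) (lam p 5 1)))
          * ff W (lf (cb (P j) (lam p 5 3))))) :=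
    BF.sum univ (Ψ := fun i W => ∑ j, (c i * c j) * (ff W (lf (cb (P i) (lam p 5 1)))
          * ff W (lf (cb (P j) (lam p 5 3))))) b4
  simp only [e2] at h
  rw [Eb_add X _ (BF.const _) ((b2 1).add ((b2 3).add b5)), Eb_const X _ (c₀ ^ 2),
    Eb_add X _ (b2 1) ((b2 3).add b5), Eb_add X _ (b2 3) b5,
    Eb_sum X _ univ (Ψ := fun i W => (c₀ * c i) * ff W (lf (cb (P i) (lam p 5 1)))) (b1 1),
    Eb_sum X _ univ (Ψ := fun i W => (c₀ * c i) * ff W (lf (cb (P i) (lam p 5 3)))) (b1 3),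
    Eb_sum X _ univ (Ψ := fun i W => ∑ j, (c i * c j) * (ff W (lf (cb (P i) (lam p 5 1)))
          * ff W (lf (cb (P j) (lam p 5 3))))) b4] at h
  have e4 : ∀ i : Fin n, Eb X (p + 5 + q) (fun W => ∑ j, (c i * c j) *
      (ff W (lf (cb (P i) (lam p 5 1))) * ff W (lf (cb (P j) (lam p 5 3)))))
      = ∑ j, c i * c j * kp X (p + 5 + q) (cb (P i) (lam p 5 1)) (cb (P j) (lam p 5 3)) := by
    intro i
    rw [Eb_sum X _ univ (Ψ := fun j W => (c i * c j) * (ff W (lf (cb (P i) (lam p 5 1)))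
          * ff W (lf (cb (P j) (lam p 5 3))))) (b3 i)]
    refine sum_congr rfl fun j _ => ?_
    rw [Eb_smul X _ _ ((BF.ff _).mul (BF.ff _))]
    rfl
  have e5 : ∀ k : ℕ, ∑ i, Eb X (p + 5 + q) (fun W => (c₀ * c i) * ff W (lf (cb (P i)
      (lam p 5 k)))) = c₀ * (∑ i, c i) * X.D := by
    intro k
    rw [mul_sum, sum_mul]
    refine sum_congr rfl fun i _ => ?_
    rw [Eb_smul X _ _ (BF.ff _), Eb_ff]
  rw [e5, e5, sum_congr rfl fun i _ => e4 i] at h
  linarith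

end Pool.Agent.J6H53.PB
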