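import Mathlib
import Pool.Agent.J6H53.PB.Psd

set_option autoImplicit false

/-!
# Equalities between pair correlations, in checkable form
-/

namespace Pool.Agent.J6H53.PB

open Finset Pool.Agent.TH7.DH Pool.Agent.TH635.BV

variable (X : Fam)

/-- check that a pair of patterns reduces to the pair with codes `x`, `y` in some order -/
def ck2 (M : ℕ) (P Q : ℕ → ℕ → Bool) (m x y L r : ℕ) : Bool :=
  ck M P Q m x y L r || ck M P Q m y x L r

lemma ck2_ok {M : ℕ} {P Q : ℕ → ℕ → Bool} {m x y L r : ℕ} (h : ck2 M P Q m x y L r = true) :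
    kp X M P Q = K X m x y := by
  unfold ck2 at h
  rw [Bool.or_eq_true] at h
  rcases h with h | h
  · exact ck_ok X h
  · rw [ck_ok X h, K_comm]

/-- the pattern `u` with the chain at position one or three -/
def at1 (p u : ℕ) : ℕ → ℕ → Bool := cb (tb u) (lam p 5 1)
def at3 (p u : ℕ) : ℕ → ℕ → Bool := cb (tb u) (lam p 5 3)

theorem sym_edge (hX : X.Bad) (p q u v m x y m' x' y' L r L' r' : ℕ)
    (h : (ck2 (p + 5 + q) (at1 p u) (at3 p v) m x y L r
      && ck2 (p + 5 + q) (at3 p u) (at1 p v) m' x' y' L' r') = true) :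
    K X m x y = K X m' x' y' := by
  rw [Bool.and_eq_true] at h
  rw [← ck2_ok X h.1, ← ck2_ok X h.2]
  exact sym_rule X hX p q (tb u) (tb v)

theorem zero_gram (hX : X.Bad) (p q h u v : ℕ) {a b c d : ℝ}
    (e1 : kp X (p + 5 + q) (at1 p h) (at3 p u) = a)
    (e2 : kp X (p + 5 + q) (at3 p h) (at1 p u) = a)
    (e3 : kp X (p + 5 + q) (at1 p h) (at3 p v) = b)
    (e4 : kp X (p + 5 + q) (at3 p h) (at1 p v) = b)
    (g1 : kp X (p + 5 + q) (at1 p u) (at3 p u) = c)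
    (g2 : kp X (p + 5 + q) (at1 p u) (at3 p v) = c)
    (g3 : kp X (p + 5 + q) (at1 p v) (at3 p u) = c)
    (g4 : kp X (p + 5 + q) (at1 p v) (at3 p v) = d) (hcd : d = c) : a = b := by
  have key : ∀ t : ℝ, 0 ≤ t ^ 2 * 1 - 2 * t * (b - a) + 0 := by
    intro t
    have h0 := psd X hX p q (n := 3) 0 ![t, 1, -1] ![tb h, tb u, tb v]
    simp only [Fin.sum_univ_three, Matrix.cons_val_zero, Matrix.cons_val_one,
      Matrix.cons_val_two, Matrix.head_cons, Matrix.tail_cons] at h0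
    change 0 ≤ _ + (t * t * kp X (p + 5 + q) (at1 p h) (at3 p h)
      + t * 1 * kp X (p + 5 + q) (at1 p h) (at3 p u)
      + t * -1 * kp X (p + 5 + q) (at1 p h) (at3 p v)
      + (1 * t * kp X (p + 5 + q) (at1 p u) (at3 p h)
      + 1 * 1 * kp X (p + 5 + q) (at1 p u) (at3 p u)
      + 1 * -1 * kp X (p + 5 + q) (at1 p u) (at3 p v))
      + (-1 * t * kp X (p + 5 + q) (at1 p v) (at3 p h)
      + -1 * 1 * kp X (p + 5 + q) (at1 p v) (at3 p u)
      + -1 * -1 * kp X (p + 5 + q) (at1 p v) (at3 p v))) at h0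
    rw [kp_comm X _ (at1 p u) (at3 p h), kp_comm X _ (at1 p v) (at3 p h), e1, e2, e3, e4, g1, g2,
      g3, g4, hcd] at h0
    have h1 := kp_le_one X hX (p + 5 + q) (at1 p h) (at3 p h)
    have h2 : t ^ 2 * kp X (p + 5 + q) (at1 p h) (at3 p h) ≤ t ^ 2 * 1 :=
      mul_le_mul_of_nonneg_left h1 (sq_nonneg t)
    linarith
  have := eq_of_quad (zero_le_one) key
  linarith

/-- digits of a list of pairs of codes -/
def cks (M : ℕ) (P Q : ℕ → ℕ → Bool) (m x y : ℕ) (l : List (ℕ × ℕ)) (i : ℕ) : Bool :=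
  ck2 M P Q m x y (l.getD i (0, 0)).1 (l.getD i (0, 0)).2

theorem abs_edge (hX : X.Bad) (p q h u v m x y m' x' y' mc xc yc ms xs ys : ℕ) (l : List (ℕ × ℕ))
    (hc : (cks (p + 5 + q) (at1 p h) (at3 p u) m x y l 0
      && cks (p + 5 + q) (at3 p h) (at1 p u) m x y l 1
      && cks (p + 5 + q) (at1 p h) (at3 p v) m' x' y' l 2
      && cks (p + 5 + q) (at3 p h) (at1 p v) m' x' y' l 3
      && cks (p + 5 + q) (at1 p u) (at3 p u) mc xc yc l 4
      && cks (p + 5 + q) (at1 p u) (at3 p v) mc xc yc l 5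
      && cks (p + 5 + q) (at1 p v) (at3 p u) mc xc yc l 6
      && cks (p + 5 + q) (at1 p v) (at3 p v) ms xs ys l 7) = true)
    (hs : K X ms xs ys = K X mc xc yc) :
    K X m x y = K X m' x' y' := by
  simp only [Bool.and_eq_true] at hc
  obtain ⟨⟨⟨⟨⟨⟨⟨c0, c1⟩, c2⟩, c3⟩, c4⟩, c5⟩, c6⟩, c7⟩ := hc
  exact zero_gram X hX p q h u v (ck2_ok X c0) (ck2_ok X c1) (ck2_ok X c2) (ck2_ok X c3)
    (ck2_ok X c4) (ck2_ok X c5) (ck2_ok X c6) (ck2_ok X c7) hs

end Pool.Agent.J6H53.PB
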