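import Mathlib
import Pool.Agent.J6H53.PB.Edge

set_option autoImplicit false

/-!
# Certificates in checkable form
-/

namespace Pool.Agent.J6H53.PB

open Finset Pool.Agent.TH7.DH Pool.Agent.TH635.BV

/-- sums by recursion -/
def sumN : ℕ → (ℕ → ℤ) → ℤ
  | 0, _ => 0
  | n + 1, f => sumN n f + f n

lemma sumN_eq (n : ℕ) (f : ℕ → ℤ) : sumN n f = ∑ i ∈ range n, f i := by
  induction n with
  | zero => rfl
  | succ n ih => rw [sumN, ih, sum_range_succ]

/-- coefficient of the class `l` in a square form -/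
def cfS (n : ℕ) (w : ℕ → ℕ → ℤ) (T : ℕ → ℕ → ℕ) (l : ℕ) : ℤ :=
  sumN n (fun i => sumN n (fun j => if T i j == l then w i j else 0))

/-- coefficient of the class `l` in a triangular form -/
def cfT (n : ℕ) (w : ℕ → ℕ → ℤ) (T : ℕ → ℕ → ℕ) (l : ℕ) : ℤ :=
  sumN n (fun j => sumN j (fun i => if T i j == l then w i j else 0))

lemma one_class {N t : ℕ} (ht : t < N) (w : ℤ) (v : ℕ → ℝ) :
    (w : ℝ) * v t = ∑ l ∈ range N, ((if t == l then w else 0 : ℤ) : ℝ) * v l := by
  rw [Finset.sum_eq_single t]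
  · simp
  · intro l _ hl
    have : (t == l) = false := by simpa using fun h => hl h.symm
    rw [this]
    simp
  · intro h
    exact (h (mem_range.2 ht)).elim

lemma cfS_sum (n N : ℕ) (w : ℕ → ℕ → ℤ) (T : ℕ → ℕ → ℕ) (v : ℕ → ℝ)
    (hT : ∀ i j, i < n → j < n → T i j < N) :
    ∑ i ∈ range n, ∑ j ∈ range n, (w i j : ℝ) * v (T i j)
      = ∑ l ∈ range N, (cfS n w T l : ℝ) * v l := by
  have h1 : ∑ i ∈ range n, ∑ j ∈ range n, (w i j : ℝ) * v (T i j)
      = ∑ i ∈ range n, ∑ j ∈ range n, ∑ l ∈ range N,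
        ((if T i j == l then w i j else 0 : ℤ) : ℝ) * v l :=
    sum_congr rfl fun i hi => sum_congr rfl fun j hj =>
      one_class (hT i j (mem_range.1 hi) (mem_range.1 hj)) _ _
  rw [h1]
  simp only [sum_comm (s := range n) (t := range N)]
  refine sum_congr rfl fun l _ => ?_
  unfold cfS
  rw [sumN_eq]
  simp only [sumN_eq, Int.cast_sum, sum_mul]

lemma cfT_sum (n N : ℕ) (w : ℕ → ℕ → ℤ) (T : ℕ → ℕ → ℕ) (v : ℕ → ℝ)
    (hT : ∀ i j, i < j → j < n → T i j < N) :
    ∑ j ∈ range n, ∑ i ∈ range j, (w i j : ℝ) * v (T i j)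
      = ∑ l ∈ range N, (cfT n w T l : ℝ) * v l := by
  have h1 : ∑ j ∈ range n, ∑ i ∈ range j, (w i j : ℝ) * v (T i j)
      = ∑ j ∈ range n, ∑ i ∈ range j, ∑ l ∈ range N,
        ((if T i j == l then w i j else 0 : ℤ) : ℝ) * v l :=
    sum_congr rfl fun j hj => sum_congr rfl fun i hi =>
      one_class (hT i j (mem_range.1 hi) (mem_range.1 hj)) _ _
  have h2 : ∀ j, ∑ i ∈ range j, ∑ l ∈ range N, ((if T i j == l then w i j else 0 : ℤ) : ℝ) * v l
      = ∑ l ∈ range N, ∑ i ∈ range j, ((if T i j == l then w i j else 0 : ℤ) : ℝ) * v l :=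
    fun j => sum_comm
  rw [h1, sum_congr rfl fun j _ => h2 j, sum_comm]
  refine sum_congr rfl fun l _ => ?_
  unfold cfT
  rw [sumN_eq]
  simp only [sumN_eq, Int.cast_sum, sum_mul]

/-- increment of the polynomial when `i` is added to `S` -/
def incr (B : ℕ → ℤ) (w : ℕ → ℕ → ℤ) (i : ℕ) : List ℕ → ℤ
  | [] => B i
  | j :: S => w i j + incr B w i S

/-- check of a quadratic inequality on all admissible sets -/
def dfs (B : ℕ → ℤ) (w : ℕ → ℕ → ℤ) (ex : ℕ → ℕ → Bool) : ℕ → List ℕ → ℤ → Bool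
  | 0, _, v => decide (0 ≤ v)
  | i + 1, S, v => dfs B w ex i S v
      && (S.any (fun j => ex i j) || dfs B w ex i (i :: S) (incr B w i S + v))

lemma dfs_ok (B : ℕ → ℤ) (w : ℕ → ℕ → ℤ) (ex : ℕ → ℕ → Bool) (e : ℕ → ℤ) (n : ℕ)
    (he : ∀ i, e i = 0 ∨ e i = 1)
    (hex : ∀ i j, i < j → j < n → ex i j = true → e i = 0 ∨ e j = 0) :
    ∀ (k : ℕ) (S : List ℕ) (v : ℤ), k ≤ n → (∀ j ∈ S, k ≤ j ∧ j < n ∧ e j = 1) →
      dfs B w ex k S v = true →
      0 ≤ v + ∑ i ∈ range k, e i * incr B w i S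
        + ∑ j ∈ range k, ∑ i ∈ range j, w i j * (e i * e j) := by
  intro k
  induction k with
  | zero =>
    intro S v _ _ h
    simpa [dfs] using h
  | succ k ih =>
    intro S v hk hS h
    rw [dfs, Bool.and_eq_true] at h
    rw [sum_range_succ, sum_range_succ (fun j => ∑ i ∈ range j, w i j * (e i * e j))]
    rcases he k with h0 | h1
    · have h2 := ih S v (by omega) (fun j hj => ⟨by have := (hS j hj).1; omega, (hS j hj).2⟩) h.1
      rw [h0]
      simp only [zero_mul, mul_zero, sum_const_zero, add_zero]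
      exact h2
    · have h3 : S.any (fun j => ex k j) = false := by
        rw [Bool.eq_false_iff]
        intro h4
        rw [List.any_eq_true] at h4
        obtain ⟨j, hj, hj'⟩ := h4
        have h5 := hS j hj
        rcases hex k j (by omega) h5.2.1 hj' with h6 | h6
        · omega
        · omega
      rw [h3, Bool.false_or] at h
      have h2 := ih (k :: S) (incr B w k S + v) (by omega) (fun j hj => by
        rcases List.mem_cons.1 hj with rfl | hj
        · exact ⟨le_rfl, by omega, h1⟩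
        · exact ⟨by have := (hS j hj).1; omega, (hS j hj).2⟩) h.2
      rw [h1]
      simp only [incr, mul_add, sum_add_distrib] at h2
      have h7 : ∑ i ∈ range k, w i k * (e i * 1) = ∑ i ∈ range k, e i * w i k :=
        sum_congr rfl fun i _ => by ring
      rw [h7]
      linarith

/-- check that the pattern `y` is the pattern `x` with the square of the union `γ` added -/
def exg (m x y γ : ℕ) : Bool :=
  (List.range m).any (fun i => Nat.testBit γ i)
  && allN m (fun a => allN m (fun b => !(Nat.testBit γ a && Nat.testBit γ b && tb x a b)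
    && (tb y a b == (tb x a b || (Nat.testBit γ a && Nat.testBit γ b)))))

lemma exg_ok {m x y γ : ℕ} (h : exg m x y γ = true) {W : (ℕ → ℕ → Prop) → Prop}
    (hW : AdmB m W) : ¬ (W (lf (tb x)) ∧ W (lf (tb y))) := by
  unfold exg at h
  rw [Bool.and_eq_true, allN_iff] at h
  have h1 := h.1
  rw [List.any_eq_true] at h1
  obtain ⟨i, hi, hi'⟩ := h1
  have h2 : ∀ a b, a < m → b < m → (!(Nat.testBit γ a && Nat.testBit γ b && tb x a b)
    && (tb y a b == (tb x a b || (Nat.testBit γ a && Nat.testBit γ b)))) = true := fun a b ha hb =>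
    (allN_iff m _).1 (h.2 a ha) b hb
  refine hW (lf (tb x)) (lf (tb y)) (fun a => Nat.testBit γ a = true)
    ⟨i, List.mem_range.1 hi, hi'⟩ ?_ ?_
  · intro a b ha hb ha' hb' h3
    have := h2 a b ha hb
    unfold lf at h3
    rw [ha', hb', h3] at this
    simp at this
  · intro a b ha hb
    have := h2 a b ha hb
    unfold lf
    rw [Bool.and_eq_true, beq_iff_eq] at this
    rw [this.2]
    simp

/-- check of a table of excluded pairs; the list gives for each pair the union -/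
def exck (m n : ℕ) (t : ℕ → ℕ) (ex : ℕ → ℕ → Bool) : Bool :=
  allN n (fun j => allN j (fun i => !(ex i j)
    || (List.range (2 ^ m)).any (fun γ => exg m (t i) (t j) γ || exg m (t j) (t i) γ)))

variable (X : Fam)

theorem local_ok (hX : X.Bad) (m n : ℕ) (t : ℕ → ℕ) (b₀ : ℤ) (B : ℕ → ℤ) (w : ℕ → ℕ → ℤ)
    (ex : ℕ → ℕ → Bool) (h1 : exck m n t ex = true) (h2 : dfs B w ex n [] b₀ = true) :
    0 ≤ (b₀ : ℝ) + (∑ i ∈ range n, (B i : ℝ)) * X.D
      + ∑ j ∈ range n, ∑ i ∈ range j, (w i j : ℝ) * kp X m (tb (t i)) (tb (t j)) := by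
  classical
  have b1 : ∀ i : ℕ, BF (fun W => (B i : ℝ) * ff W (lf (tb (t i)))) := fun i => (BF.ff _).smul _
  have b2 : BF (fun W => ∑ i ∈ range n, (B i : ℝ) * ff W (lf (tb (t i)))) :=
    BF.sum (range n) (Ψ := fun i W => (B i : ℝ) * ff W (lf (tb (t i)))) b1
  have b3 : ∀ i j : ℕ, BF (fun W => (w i j : ℝ) * (ff W (lf (tb (t i))) * ff W (lf (tb (t j))))) :=
    fun i j => ((BF.ff _).mul (BF.ff _)).smul _
  have b4 : ∀ j : ℕ, BF (fun W => ∑ i ∈ range j, (w i j : ℝ) * (ff W (lf (tb (t i)))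
      * ff W (lf (tb (t j))))) := fun j =>
    BF.sum (range j) (Ψ := fun i W => (w i j : ℝ) * (ff W (lf (tb (t i)))
      * ff W (lf (tb (t j))))) (fun i => b3 i j)
  have b5 : BF (fun W => ∑ j ∈ range n, ∑ i ∈ range j, (w i j : ℝ) * (ff W (lf (tb (t i)))
      * ff W (lf (tb (t j))))) :=
    BF.sum (range n) (Ψ := fun j W => ∑ i ∈ range j, (w i j : ℝ) * (ff W (lf (tb (t i)))
      * ff W (lf (tb (t j))))) b4
  have h0 : 0 ≤ Eb X m (fun W => (b₀ : ℝ) + ((∑ i ∈ range n, (B i : ℝ) * ff W (lf (tb (t i))))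
      + ∑ j ∈ range n, ∑ i ∈ range j, (w i j : ℝ) * (ff W (lf (tb (t i)))
      * ff W (lf (tb (t j)))))) := by
    rw [← Eb_const X m 0]
    refine Eb_mono X hX m (BF.const 0) ((BF.const _).add (b2.add b5)) fun W hW => ?_
    have h3 := dfs_ok B w ex (fun i => if W (lf (tb (t i))) then 1 else 0) n
      (fun i => by by_cases h : W (lf (tb (t i))) <;> simp [h]) ?_ n [] b₀ le_rfl (by simp) h2
    · have h4 : ∀ i, (((if W (lf (tb (t i))) then 1 else 0 : ℤ) : ℤ) : ℝ)
          = ff W (lf (tb (t i))) := by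
        intro i
        unfold ff
        split_ifs <;> simp
      have h5 : (0 : ℝ) ≤ ((b₀ + ∑ i ∈ range n, (if W (lf (tb (t i))) then 1 else 0 : ℤ)
          * incr B w i [] + ∑ j ∈ range n, ∑ i ∈ range j, w i j
          * ((if W (lf (tb (t i))) then 1 else 0 : ℤ) * (if W (lf (tb (t j))) then 1 else 0 : ℤ))
          : ℤ) : ℝ) := by exact_mod_cast h3
      push_cast only [Int.cast_add, Int.cast_sum, Int.cast_mul] at h5
      simp only [h4, incr] at h5
      have h6 : ∑ i ∈ range n, ff W (lf (tb (t i))) * (B i : ℝ)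
          = ∑ i ∈ range n, (B i : ℝ) * ff W (lf (tb (t i))) :=
        sum_congr rfl fun i _ => mul_comm _ _
      rw [h6] at h5
      linarith
    · intro i j hij hj hx
      have h7 := (allN_iff n _).1 h1 j hj
      have h8 := (allN_iff j _).1 h7 i hij
      rw [hx] at h8
      simp only [Bool.not_true, Bool.false_or, List.any_eq_true] at h8
      obtain ⟨γ, -, hγ⟩ := h8
      rw [Bool.or_eq_true] at hγ
      have h9 : ¬ (W (lf (tb (t i))) ∧ W (lf (tb (t j)))) := by
        rcases hγ with h | h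
        · exact exg_ok h hW
        · exact fun h' => exg_ok h hW h'.symm
      by_cases h10 : W (lf (tb (t i)))
      · right
        rw [if_neg fun h => h9 ⟨h10, h⟩]
      · left
        rw [if_neg h10]
  rw [Eb_add X _ (BF.const _) (b2.add b5), Eb_const, Eb_add X _ b2 b5,
    Eb_sum X _ (range n) (Ψ := fun i W => (B i : ℝ) * ff W (lf (tb (t i)))) b1,
    Eb_sum X _ (range n) (Ψ := fun j W => ∑ i ∈ range j, (w i j : ℝ) * (ff W (lf (tb (t i)))
      * ff W (lf (tb (t j))))) b4] at h0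
  have e1 : ∑ i ∈ range n, Eb X m (fun W => (B i : ℝ) * ff W (lf (tb (t i))))
      = (∑ i ∈ range n, (B i : ℝ)) * X.D := by
    rw [sum_mul]
    refine sum_congr rfl fun i _ => ?_
    rw [Eb_smul X _ _ (BF.ff _), Eb_ff]
  have e2 : ∀ j, Eb X m (fun W => ∑ i ∈ range j, (w i j : ℝ) * (ff W (lf (tb (t i)))
      * ff W (lf (tb (t j))))) = ∑ i ∈ range j, (w i j : ℝ) * kp X m (tb (t i)) (tb (t j)) := by
    intro j
    rw [Eb_sum X _ (range j) (Ψ := fun i W => (w i j : ℝ) * (ff W (lf (tb (t i)))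
      * ff W (lf (tb (t j))))) (fun i => b3 i j)]
    refine sum_congr rfl fun i _ => ?_
    rw [Eb_smul X _ _ ((BF.ff _).mul (BF.ff _))]
    rfl
  rw [e1, sum_congr rfl fun j _ => e2 j] at h0
  linarith

/-- positivity along an indiscernible sequence, integer coefficients -/
theorem psd_int (hX : X.Bad) (p q n : ℕ) (c₀ : ℤ) (c : ℕ → ℤ) (u : ℕ → ℕ) :
    0 ≤ (c₀ : ℝ) ^ 2 + 2 * c₀ * (∑ i ∈ range n, (c i : ℝ)) * X.D
      + ∑ i ∈ range n, ∑ j ∈ range n, ((c i * c j : ℤ) : ℝ) *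
      kp X (p + 5 + q) (at1 p (u i)) (at3 p (u j)) := by
  have h := psd X hX p q (n := n) (c₀ : ℝ) (fun i => (c i : ℝ)) (fun i => tb (u i))
  rw [Finset.sum_range, Finset.sum_range]
  simp only [Finset.sum_range]
  push_cast
  exact h

/-- a table of known values: number of blocks, codes, class -/
abbrev Key := ℕ × ℕ × ℕ × ℕ

/-- the table `ks` gives correct classes for the values `v` -/
def KeyOK (v : ℕ → ℝ) (ks : List Key) : Prop :=
  ∀ t ∈ ks, K X t.1 t.2.1 t.2.2.1 = v t.2.2.2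

/-- check of one entry -/
def ent (M : ℕ) (P Q : ℕ → ℕ → Bool) (ks : List Key) (e : ℕ × ℕ × ℕ) : Bool :=
  match ks[e.1]? with
  | none => false
  | some t => ck2 M P Q t.1 t.2.1 t.2.2.1 e.2.1 e.2.2

/-- class of an entry -/
def cla (ks : List Key) (e : ℕ × ℕ × ℕ) : ℕ := (ks.getD e.1 (0, 0, 0, 0)).2.2.2

lemma ent_ok {v : ℕ → ℝ} {ks : List Key} (hk : KeyOK X v ks) {M : ℕ} {P Q : ℕ → ℕ → Bool}
    {e : ℕ × ℕ × ℕ} (h : ent M P Q ks e = true) : kp X M P Q = v (cla ks e) := by
  unfold ent at h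
  split at h
  · simp at h
  · rename_i t ht
    have h1 := hk t (List.mem_of_getElem? ht)
    rw [ck2_ok X h, h1]
    unfold cla
    rw [List.getD_eq_getElem?_getD, ht]
    rfl

end Pool.Agent.J6H53.PB
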