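import Mathlib
import Pool.Agent.J6H53.PB.Refl

set_option autoImplicit false

/-!
# Bounds for the density from certificates
-/

namespace Pool.Agent.J6H53.PB

open Finset Pool.Agent.TH7.DH Pool.Agent.TH635.BV

/-- a positivity statement along an indiscernible sequence; `tab` lists, row by row, the number of
a key and the codes of the reduction -/
structure Cut where
  p : ℕ
  q : ℕ
  n : ℕ
  d : ℕ
  c₀ : ℤ
  c : List ℤ
  u : List ℕ
  tab : List (List (ℕ × ℕ × ℕ))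

/-- entry of a table -/
def Ent (tab : List (List (ℕ × ℕ × ℕ))) (i j : ℕ) : ℕ × ℕ × ℕ :=
  (tab.getD i []).getD j (0, 0, 0)

def Cut.cc (C : Cut) (i : ℕ) : ℤ := C.c.getD i 0

def Cut.chk (C : Cut) (ks : List Key) (N : ℕ) : Bool :=
  allN C.n (fun i => allN C.n (fun j =>
    ent (C.p + 5 + C.q) (at1 C.p (C.u.getD i 0)) (at3 C.p (C.u.getD j 0)) ks (Ent C.tab i j)
    && decide (cla ks (Ent C.tab i j) < N)))

def Cut.cf (C : Cut) (ks : List Key) (l : ℕ) : ℤ :=
  cfS C.n (fun i j => C.cc i * C.cc j) (fun i j => cla ks (Ent C.tab i j)) l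

variable (X : Fam)

theorem Cut.ok (hX : X.Bad) (C : Cut) {v : ℕ → ℝ} {ks : List Key} (hk : KeyOK X v ks) {N : ℕ}
    (h : C.chk ks N = true) :
    0 ≤ ((C.c₀ * C.c₀ : ℤ) : ℝ) + ((2 * C.c₀ * sumN C.n C.cc : ℤ) : ℝ) * X.D
      + ∑ l ∈ range N, (C.cf ks l : ℝ) * v l := by
  have h1 := psd_int X hX C.p C.q C.n C.c₀ C.cc (fun i => C.u.getD i 0)
  have h2 : ∀ i j, i < C.n → j < C.n →
      (ent (C.p + 5 + C.q) (at1 C.p (C.u.getD i 0)) (at3 C.p (C.u.getD j 0)) ks (Ent C.tab i j)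
        && decide (cla ks (Ent C.tab i j) < N)) = true := fun i j hi hj =>
    (allN_iff _ _).1 ((allN_iff _ _).1 h i hi) j hj
  have h3 : ∑ i ∈ range C.n, ∑ j ∈ range C.n, ((C.cc i * C.cc j : ℤ) : ℝ) *
      kp X (C.p + 5 + C.q) (at1 C.p (C.u.getD i 0)) (at3 C.p (C.u.getD j 0))
      = ∑ i ∈ range C.n, ∑ j ∈ range C.n, ((C.cc i * C.cc j : ℤ) : ℝ) *
      v (cla ks (Ent C.tab i j)) := by
    refine sum_congr rfl fun i hi => sum_congr rfl fun j hj => ?_
    have h4 := h2 i j (mem_range.1 hi) (mem_range.1 hj)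
    rw [Bool.and_eq_true] at h4
    rw [ent_ok X hk h4.1]
  rw [h3, cfS_sum C.n N (fun i j => C.cc i * C.cc j) (fun i j => cla ks (Ent C.tab i j)) v
    (fun i j hi hj => by
      have h4 := h2 i j hi hj
      rw [Bool.and_eq_true, decide_eq_true_eq] at h4
      exact h4.2)] at h1
  push_cast
  rw [sumN_eq]
  push_cast
  unfold Cut.cf
  have e : (C.c₀ : ℝ) * C.c₀ = (C.c₀ : ℝ) ^ 2 := by ring
  rw [e]
  exact h1

/-- total of the cuts: constant, coefficient of the density, coefficient of a class -/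
def cst : List Cut → ℤ
  | [] => 0
  | C :: l => C.d * (C.c₀ * C.c₀) + cst l

def cfD : List Cut → ℤ
  | [] => 0
  | C :: l => C.d * (2 * C.c₀ * sumN C.n C.cc) + cfD l

def cfL (ks : List Key) : List Cut → ℕ → ℤ
  | [], _ => 0
  | C :: l, k => C.d * C.cf ks k + cfL ks l k

theorem cuts_ok (hX : X.Bad) {v : ℕ → ℝ} {ks : List Key} (hk : KeyOK X v ks) {N : ℕ} :
    ∀ (l : List Cut), l.all (fun C => C.chk ks N) = true →
    0 ≤ (cst l : ℝ) + (cfD l : ℝ) * X.D + ∑ k ∈ range N, (cfL ks l k : ℝ) * v k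
  | [], _ => by simp [cst, cfD, cfL]
  | C :: l, h => by
    rw [List.all_cons, Bool.and_eq_true] at h
    have h1 := C.ok X hX hk h.1
    have h2 := cuts_ok hX hk l h.2
    have h3 : (0 : ℝ) ≤ C.d := by positivity
    have h4 := mul_nonneg h3 h1
    simp only [cst, cfD, cfL, Int.cast_add, Int.cast_mul, Int.cast_natCast, add_mul,
      sum_add_distrib, mul_assoc] at h2 h4 ⊢
    rw [mul_add, mul_add, mul_sum] at h4
    push_cast at h4 ⊢
    linarith

/-- data of a local inequality -/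
structure Loc where
  m : ℕ
  n : ℕ
  t : List ℕ
  b₀ : ℤ
  B : List ℤ
  w : List (List ℤ)
  ex : List ℕ
  tab : List (List (ℕ × ℕ × ℕ))

def Loc.ww (C : Loc) (i j : ℕ) : ℤ := (C.w.getD i []).getD j 0
def Loc.BB (C : Loc) (i : ℕ) : ℤ := C.B.getD i 0
def Loc.ee (C : Loc) (i j : ℕ) : Bool := Nat.testBit (C.ex.getD i 0) j
def Loc.tt (C : Loc) (i : ℕ) : ℕ := C.t.getD i 0

def Loc.chk (C : Loc) (ks : List Key) (N : ℕ) : Bool :=
  exck C.m C.n C.tt C.ee && dfs C.BB C.ww C.ee C.n [] C.b₀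
  && allN C.n (fun j => allN j (fun i => (C.ww i j == 0
    || ent C.m (tb (C.tt i)) (tb (C.tt j)) ks (Ent C.tab i j))
    && decide (cla ks (Ent C.tab i j) < N)))

def Loc.cf (C : Loc) (ks : List Key) (l : ℕ) : ℤ :=
  cfT C.n C.ww (fun i j => cla ks (Ent C.tab i j)) l

theorem Loc.ok (hX : X.Bad) (C : Loc) {v : ℕ → ℝ} {ks : List Key} (hk : KeyOK X v ks) {N : ℕ}
    (h : C.chk ks N = true) :
    0 ≤ (C.b₀ : ℝ) + ((sumN C.n C.BB : ℤ) : ℝ) * X.D
      + ∑ l ∈ range N, (C.cf ks l : ℝ) * v l := by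
  unfold Loc.chk at h
  rw [Bool.and_eq_true, Bool.and_eq_true] at h
  obtain ⟨⟨h1, h2⟩, h3⟩ := h
  have h4 := local_ok X hX C.m C.n C.tt C.b₀ C.BB C.ww C.ee h1 h2
  have h5 : ∀ i j, i < j → j < C.n → ((C.ww i j == 0
    || ent C.m (tb (C.tt i)) (tb (C.tt j)) ks (Ent C.tab i j))
    && decide (cla ks (Ent C.tab i j) < N)) = true := fun i j hi hj =>
    (allN_iff _ _).1 ((allN_iff _ _).1 h3 j hj) i hi
  have h6 : ∑ j ∈ range C.n, ∑ i ∈ range j, (C.ww i j : ℝ) * kp X C.m (tb (C.tt i)) (tb (C.tt j))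
      = ∑ j ∈ range C.n, ∑ i ∈ range j, (C.ww i j : ℝ) * v (cla ks (Ent C.tab i j)) := by
    refine sum_congr rfl fun j hj => sum_congr rfl fun i hi => ?_
    have h7 := h5 i j (mem_range.1 hi) (mem_range.1 hj)
    rw [Bool.and_eq_true, Bool.or_eq_true] at h7
    rcases h7.1 with h8 | h8
    · rw [beq_iff_eq] at h8
      rw [h8]
      simp
    · rw [ent_ok X hk h8]
  rw [h6, cfT_sum C.n N C.ww (fun i j => cla ks (Ent C.tab i j)) v
    (fun i j hi hj => by
      have h7 := h5 i j hi hj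
      rw [Bool.and_eq_true, decide_eq_true_eq] at h7
      exact h7.2)] at h4
  rw [sumN_eq]
  push_cast
  exact h4

/-- positive parts of the coefficients of the classes other than `0` and `z` -/
def posN (z : ℕ) (tot : ℕ → ℤ) (l : ℕ) : ℤ := if l == 0 || l == z then 0 else max (tot l) 0

/-- a certificate bounds the density -/
theorem master (hX : X.Bad) {v : ℕ → ℝ} {ks : List Key} (hk : KeyOK X v ks) {N : ℕ} (z : ℕ)
    (h0 : v 0 = X.D) (hz : v z = 0) (hv : ∀ l, 0 ≤ v l) (hv' : ∀ l, v l ≤ X.D) (hN : 0 < N)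
    (cuts : List Cut) (C : Loc) (hcuts : cuts.all (fun C => C.chk ks N) = true)
    (hC : C.chk ks N = true) (tot : List ℤ)
    (htot : allN N (fun l => cfL ks cuts l + C.cf ks l == tot.getD l 0) = true) :
    0 ≤ ((cst cuts + C.b₀ : ℤ) : ℝ) + ((cfD cuts + sumN C.n C.BB + tot.getD 0 0
      + sumN N (posN z (fun l => tot.getD l 0)) : ℤ) : ℝ) * X.D := by
  have h1 := cuts_ok X hX hk cuts hcuts
  have h2 := C.ok X hX hk hC
  have h3 : ∑ l ∈ range N, (cfL ks cuts l : ℝ) * v l + ∑ l ∈ range N, (C.cf ks l : ℝ) * v l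
      = ∑ l ∈ range N, ((tot.getD l 0 : ℤ) : ℝ) * v l := by
    rw [← sum_add_distrib]
    refine sum_congr rfl fun l hl => ?_
    have h4 := (allN_iff _ _).1 htot l (mem_range.1 hl)
    rw [beq_iff_eq] at h4
    rw [← h4]
    push_cast
    ring
  have h5 : ∑ l ∈ range N, ((tot.getD l 0 : ℤ) : ℝ) * v l
      ≤ ((tot.getD 0 0 : ℤ) : ℝ) * X.D
        + ((sumN N (posN z (fun l => tot.getD l 0)) : ℤ) : ℝ) * X.D := by
    obtain ⟨n, rfl⟩ : ∃ n, N = n + 1 := ⟨N - 1, by omega⟩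
    rw [sumN_eq, sum_range_succ', sum_range_succ']
    have e0 : posN z (fun l => tot.getD l 0) 0 = 0 := by simp [posN]
    rw [e0, h0, add_zero]
    push_cast
    rw [sum_mul, add_comm]
    refine add_le_add le_rfl (sum_le_sum fun l _ => ?_)
    unfold posN
    by_cases hl : l + 1 = z
    · rw [hl, hz]
      simp
    · have e1 : ((l + 1 == 0) || (l + 1 == z)) = false := by simp [hl]
      rw [e1]
      simp only [Bool.false_eq_true, if_false]
      have h6 := hv (l + 1)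
      have h7 := hv' (l + 1)
      rcases le_total (tot.getD (l + 1) 0) 0 with h | h
      · rw [max_eq_right h]
        have h8 : ((tot.getD (l + 1) 0 : ℤ) : ℝ) ≤ 0 := by exact_mod_cast h
        have h9 := mul_nonneg (neg_nonneg.2 h8) h6
        simp only [Int.cast_zero, zero_mul]
        linarith
      · rw [max_eq_left h]
        have h8 : (0 : ℝ) ≤ ((tot.getD (l + 1) 0 : ℤ) : ℝ) := by exact_mod_cast h
        exact mul_le_mul_of_nonneg_left h7 h8
  push_cast at h3 h5 ⊢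
  linarith

lemma kp_le_D (hX : X.Bad) (m : ℕ) (P Q : ℕ → ℕ → Bool) : kp X m P Q ≤ X.D := by
  rw [← Eb_ff X m (lf P)]
  refine Eb_mono X hX m ((BF.ff _).mul (BF.ff _)) (BF.ff _) fun W _ => ?_
  rcases ff01 W (lf P) with h | h <;> rcases ff01 W (lf Q) with h' | h' <;> rw [h, h'] <;> norm_num

lemma prod_zero {m x y : ℕ}
    (h : (List.range (2 ^ m)).any (fun γ => exg m x y γ || exg m y x γ) = true)
    {W : (ℕ → ℕ → Prop) → Prop} (hW : AdmB m W) : ff W (lf (tb x)) * ff W (lf (tb y)) ≤ 0 := by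
  rw [List.any_eq_true] at h
  obtain ⟨γ, -, hγ⟩ := h
  rw [Bool.or_eq_true] at hγ
  have h9 : ¬ (W (lf (tb x)) ∧ W (lf (tb y))) := by
    rcases hγ with h | h
    · exact exg_ok h hW
    · exact fun h' => exg_ok h hW h'.symm
  by_cases h1 : W (lf (tb x))
  · have h2 : ff W (lf (tb y)) = 0 := by
      unfold ff
      rw [if_neg fun h' => h9 ⟨h1, h'⟩]
    rw [h2, mul_zero]
  · have h2 : ff W (lf (tb x)) = 0 := by
      unfold ff
      rw [if_neg h1]
    rw [h2, zero_mul]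

lemma K_zero (m x y : ℕ) (h : (List.range (2 ^ m)).any (fun γ => exg m x y γ || exg m y x γ) = true)
    (hX : X.Bad) : K X m x y = 0 := by
  refine le_antisymm ?_ (kp_nonneg X hX m (tb x) (tb y))
  have key : Eb X m (fun W => ff W (lf (tb x)) * ff W (lf (tb y))) ≤ Eb X m (fun _ => (0 : ℝ)) := by
    refine Eb_mono X hX m ((BF.ff _).mul (BF.ff _)) (BF.const 0) fun W hW => ?_
    exact prod_zero h hW
  rw [Eb_const] at key
  exact key

end Pool.Agent.J6H53.PB
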